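import Pool.Agent.Fml.Seq

set_option autoImplicit false
set_option linter.unusedSectionVars false
set_option linter.unusedVariables false

namespace Pool.Fml

open Finset.HasAntidiagonal (antidiagonal mem_antidiagonal)

variable {ν : Type} [Fintype ν] [DecidableEq ν]

/-- growth: the coefficients of `s ^ j` form power series in `x` with a common radius -/
def Tame (a : (Option ν →₀ ℕ) → ℝ) : Prop :=
  ∃ R : ℝ, 0 < R ∧ ∀ j : ℕ, ∃ C : ℝ, ∀ m : Option ν →₀ ℕ, m none = j → a m ≤ C * R ^ m.degree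

/-- the weight function -/
noncomputable def om (ρ : ℝ) (τ : ℕ → ℝ) (m : Option ν →₀ ℕ) : ℝ := ρ ^ m.degree * τ (m none)

lemma om_sub {ρ : ℝ} (hρ : 0 < ρ) {τ : ℕ → ℝ} (h0 : ∀ j, 0 < τ j)
    (h : ∀ i j, τ (i + j) ≤ τ i * τ j) : Sub (om ρ τ : (Option ν →₀ ℕ) → ℝ) := by
  refine ⟨fun m => mul_pos (pow_pos hρ _) (h0 _), fun p q => ?_⟩
  simp only [om, map_add, Finsupp.add_apply, pow_add]
  calc ρ ^ p.degree * ρ ^ q.degree * τ (p none + q none)
      ≤ ρ ^ p.degree * ρ ^ q.degree * (τ (p none) * τ (q none)) :=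
        mul_le_mul_of_nonneg_left (h _ _) (by positivity)
    _ = _ := by ring

lemma om_sub_one {ρ : ℝ} (hρ : 0 < ρ) : Sub (om ρ (fun _ => 1) : (Option ν →₀ ℕ) → ℝ) :=
  om_sub hρ (fun _ => one_pos) (fun _ _ => by norm_num)

lemma core_omega {a : (Option ν →₀ ℕ) → ℝ} (ha : ∀ m, 0 ≤ a m) {R : ℝ} (hR : 0 < R)
    {C : ℕ → ℝ} (hC : ∀ m, a m ≤ C (m none) * R ^ m.degree) :
    ∃ τ : ℕ → ℝ, (∀ j, 0 < τ j) ∧ (∀ i j, τ (i + j) ≤ τ i * τ j) ∧
      ∀ m, a m * om (1 / (2 * R)) τ m ≤ max (C 0) 1 * (1 / 2) ^ m.degree := by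
  obtain ⟨τ, h0, h1, h2, h3⟩ := exists_tau (fun j => |C j|) (fun j => abs_nonneg _)
  refine ⟨τ, h1, h2, fun m => ?_⟩
  have e : ∀ k : ℕ, R ^ k * (1 / (2 * R)) ^ k = (1 / 2) ^ k := fun k => by
    rw [← mul_pow]; congr 1; field_simp
  have key : C (m none) * τ (m none) ≤ max (C 0) 1 := by
    rcases Nat.eq_zero_or_pos (m none) with h | h
    · rw [h, h0, mul_one]; exact le_max_left _ _
    · obtain ⟨j, hj⟩ : ∃ j, m none = j + 1 := ⟨m none - 1, by omega⟩
      rw [hj]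
      refine le_trans (le_trans (mul_le_mul_of_nonneg_right (le_abs_self _) (h1 _).le) (h3 j)) ?_
      exact le_trans (pow_le_one₀ (by norm_num) (by norm_num)) (le_max_right _ _)
  calc a m * om (1 / (2 * R)) τ m ≤ C (m none) * R ^ m.degree * om (1 / (2 * R)) τ m :=
        mul_le_mul_of_nonneg_right (hC m) (mul_nonneg (by positivity) (h1 _).le)
    _ = C (m none) * τ (m none) * (1 / 2) ^ m.degree := by
        rw [om, ← e]; ring
    _ ≤ _ := mul_le_mul_of_nonneg_right key (by positivity)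

lemma tame_of_summable {a : (Option ν →₀ ℕ) → ℝ} (ha : ∀ m, 0 ≤ a m) {ρ : ℝ} (hρ : 0 < ρ)
    {τ : ℕ → ℝ} (h0 : ∀ j, 0 < τ j) (h : Summable fun m => a m * om ρ τ m) : Tame a := by
  refine ⟨1 / ρ, by positivity, fun j => ⟨(∑' m, a m * om ρ τ m) / τ j, fun m hm => ?_⟩⟩
  have h1 : a m * om ρ τ m ≤ ∑' m, a m * om ρ τ m :=
    h.le_tsum m fun m _ => mul_nonneg (ha m) (mul_nonneg (by positivity) (h0 _).le)
  have e : ρ ^ m.degree * (1 / ρ) ^ m.degree = 1 := by
    rw [← mul_pow, mul_one_div_cancel hρ.ne', one_pow]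
  have h2 : a m = a m * om ρ τ m / τ j * (1 / ρ) ^ m.degree := by
    rw [om, hm]
    have := (h0 j).ne'
    calc a m = a m * (ρ ^ m.degree * (1 / ρ) ^ m.degree) := by rw [e, mul_one]
      _ = _ := by field_simp
  rw [h2]
  exact mul_le_mul_of_nonneg_right (div_le_div_of_nonneg_right h1 (h0 j).le) (by positivity)

lemma Tame.exists_C {a : (Option ν →₀ ℕ) → ℝ} (h : Tame a) :
    ∃ R : ℝ, 0 < R ∧ ∃ C : ℕ → ℝ, ∀ m, a m ≤ C (m none) * R ^ m.degree := by
  obtain ⟨R, hR, h⟩ := h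
  choose C hC using h
  exact ⟨R, hR, C, fun m => hC _ m rfl⟩

lemma Tame.summable {a : (Option ν →₀ ℕ) → ℝ} (ha : ∀ m, 0 ≤ a m) (h : Tame a) :
    ∃ ρ : ℝ, 0 < ρ ∧ ∃ τ : ℕ → ℝ, (∀ j, 0 < τ j) ∧ (∀ i j, τ (i + j) ≤ τ i * τ j) ∧
      Summable fun m => a m * om ρ τ m := by
  obtain ⟨R, hR, C, hC⟩ := h.exists_C
  obtain ⟨τ, h1, h2, h3⟩ := core_omega ha hR hC
  refine ⟨1 / (2 * R), by positivity, τ, h1, h2, ?_⟩
  refine Summable.of_nonneg_of_le (fun m => mul_nonneg (ha m)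
    (mul_nonneg (by positivity) (h1 _).le)) h3 ?_
  exact (summable_deg (1 / 2) (by norm_num) (by norm_num)).mul_left _

lemma Tame.mono {a b : (Option ν →₀ ℕ) → ℝ} (hb : Tame b) (h : ∀ m, a m ≤ b m) : Tame a := by
  obtain ⟨R, hR, hb⟩ := hb
  refine ⟨R, hR, fun j => ?_⟩
  obtain ⟨C, hC⟩ := hb j
  exact ⟨C, fun m hm => (h m).trans (hC m hm)⟩

lemma Tame.zero : Tame (fun _ : Option ν →₀ ℕ => (0 : ℝ)) :=
  ⟨1, one_pos, fun _ => ⟨0, fun _ _ => by simp⟩⟩

lemma Tame.add {a b : (Option ν →₀ ℕ) → ℝ} (ha : Tame a) (hb : Tame b) :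
    Tame fun m => a m + b m := by
  obtain ⟨R, hR, C, ha⟩ := ha.exists_C
  obtain ⟨S, hS, D, hb⟩ := hb.exists_C
  refine ⟨max R S, lt_max_of_lt_left hR, fun j => ⟨|C j| + |D j|, fun m hm => ?_⟩⟩
  subst hm
  rw [add_mul]
  refine add_le_add ((ha m).trans ?_) ((hb m).trans ?_)
  · exact mul_le_mul (le_abs_self _) (pow_le_pow_left₀ hR.le (le_max_left _ _) _)
      (by positivity) (abs_nonneg _)
  · exact mul_le_mul (le_abs_self _) (pow_le_pow_left₀ hS.le (le_max_right _ _) _)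
      (by positivity) (abs_nonneg _)

lemma Tame.sum {κ : Type} (s : Finset κ) {a : κ → (Option ν →₀ ℕ) → ℝ}
    (h : ∀ k ∈ s, Tame (a k)) : Tame fun m => ∑ k ∈ s, a k m := by
  classical
  induction s using Finset.induction_on with
  | empty => simpa using Tame.zero
  | insert k s hk ih =>
    simp only [Finset.sum_insert hk]
    exact (h k (Finset.mem_insert_self k s)).add (ih fun l hl => h l (Finset.mem_insert_of_mem hl))

lemma Tame.conv {a b c : (Option ν →₀ ℕ) → ℝ} (ha0 : ∀ m, 0 ≤ a m) (hb0 : ∀ m, 0 ≤ b m)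
    (hc0 : ∀ m, 0 ≤ c m) (ha : Tame a) (hb : Tame b)
    (hc : ∀ m, c m ≤ ∑ p ∈ antidiagonal m, a p.1 * b p.2) : Tame c := by
  obtain ⟨ρ, hρ, τ, h1, h2, h3⟩ := (ha.add hb).summable fun m => add_nonneg (ha0 m) (hb0 m)
  have hω := om_sub (ν := ν) hρ h1 h2
  have h4 : Summable fun m => a m * om ρ τ m :=
    Summable.of_nonneg_of_le (fun m => mul_nonneg (ha0 m) (hω.1 m).le)
      (fun m => mul_le_mul_of_nonneg_right (by linarith [hb0 m]) (hω.1 m).le) h3
  have h5 : Summable fun m => b m * om ρ τ m :=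
    Summable.of_nonneg_of_le (fun m => mul_nonneg (hb0 m) (hω.1 m).le)
      (fun m => mul_le_mul_of_nonneg_right (by linarith [ha0 m]) (hω.1 m).le) h3
  exact tame_of_summable hc0 hρ h1 (conv_summable hω ha0 hb0 hc0 h4 h5 hc)

/-- shifting the exponent and multiplying by a linear factor -/
lemma Tame.shift {a b : (Option ν →₀ ℕ) → ℝ} (ha0 : ∀ m, 0 ≤ a m) (ha : Tame a)
    (i : Option ν) (hb : ∀ m, b m ≤ a (m + Finsupp.single i 1) * ((m i : ℝ) + 1)) : Tame b := by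
  obtain ⟨R, hR, C, ha⟩ := ha.exists_C
  refine ⟨2 * R, by positivity, fun j =>
    ⟨(|C j| + |C (j + 1)|) * R, fun m hm => ?_⟩⟩
  refine (hb m).trans ?_
  have h1 : ((m i : ℝ) + 1) ≤ 2 ^ m.degree := by
    have h2 : m i ≤ m.degree := by
      rw [Finsupp.degree_eq_sum]
      exact Finset.single_le_sum (f := fun i => m i) (fun _ _ => Nat.zero_le _)
        (Finset.mem_univ i)
    have h3 : m.degree + 1 ≤ 2 ^ m.degree := Nat.lt_two_pow_self
    have h4 : m i + 1 ≤ 2 ^ m.degree := by omega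
    exact_mod_cast h4
  have h5 : a (m + Finsupp.single i 1) ≤ (|C j| + |C (j + 1)|) * R * R ^ m.degree := by
    refine (ha _).trans ?_
    rw [map_add, Finsupp.degree_single, pow_succ, mul_assoc (|C j| + |C (j + 1)|),
      mul_comm R (R ^ m.degree)]
    refine mul_le_mul_of_nonneg_right ?_ (by positivity)
    subst hm
    rcases eq_or_ne i none with h | h
    · subst h
      simp only [Finsupp.add_apply, Finsupp.single_eq_same]
      linarith [le_abs_self (C (m none + 1)), abs_nonneg (C (m none))]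
    · rw [Finsupp.add_apply, Finsupp.single_eq_of_ne h.symm, add_zero]
      linarith [le_abs_self (C (m none)), abs_nonneg (C (m none + 1))]
  calc a (m + Finsupp.single i 1) * ((m i : ℝ) + 1)
      ≤ ((|C j| + |C (j + 1)|) * R * R ^ m.degree) * 2 ^ m.degree :=
        mul_le_mul h5 h1 (by positivity) (by positivity)
    _ = _ := by rw [mul_pow]; ring

/-- a tame family supported in bounded `s`-degree converges jointly -/
lemma Tame.bounded {a : (Option ν →₀ ℕ) → ℝ} (ha0 : ∀ m, 0 ≤ a m) (ha : Tame a) :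
    ∃ R : ℝ, 0 < R ∧ ∀ (K : ℕ) (b : (Option ν →₀ ℕ) → ℝ), (∀ m, 0 ≤ b m) → (∀ m, b m ≤ a m) →
      (∀ m, K < m none → b m = 0) →
      ∀ ρ : ℝ, 0 < ρ → ρ ≤ 1 / (2 * R) → Summable fun m => b m * om ρ (fun _ => 1) m := by
  obtain ⟨R, hR, C, ha⟩ := ha.exists_C
  refine ⟨R, hR, fun K b hb0 hb hK ρ hρ hρR => ?_⟩
  set D := ∑ j ∈ Finset.range (K + 1), |C j| with hD
  have hD0 : 0 ≤ D := Finset.sum_nonneg fun _ _ => abs_nonneg _
  refine Summable.of_nonneg_of_le (fun m => mul_nonneg (hb0 m) (by rw [om]; positivity))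
    (fun m => ?_) ((summable_deg (ι := Option ν) (1 / 2) (by norm_num) (by norm_num)).mul_left D)
  by_cases hm : K < m none
  · rw [hK m hm, zero_mul]; positivity
  · have h1 : |C (m none)| ≤ D :=
      Finset.single_le_sum (f := fun j => |C j|) (fun _ _ => abs_nonneg _)
        (Finset.mem_range.2 (by omega))
    have e : R ^ m.degree * (1 / (2 * R)) ^ m.degree = (1 / 2) ^ m.degree := by
      rw [← mul_pow]; congr 1; field_simp
    calc b m * om ρ (fun _ => 1) m ≤ (D * R ^ m.degree) * (1 / (2 * R)) ^ m.degree := by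
          rw [om, mul_one]
          refine mul_le_mul ((hb m).trans ((ha m).trans
            (mul_le_mul_of_nonneg_right ((le_abs_self _).trans h1) (by positivity))))
            (pow_le_pow_left₀ hρ.le hρR _) (by positivity) (by positivity)
      _ = _ := by rw [mul_assoc, e]

end Pool.Fml
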