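import Pool.Agent.Fml.Tame

/-!
# Formal and convergent microdifferential lattices in generic position

`X = ℂ^d × ℂ` with coordinates `x_1, …, x_d, t` and `p = (0; dt)`. Near `p` the ring of (formal)
microdifferential operators of order `≤ 0` contains `x_i`, `s = ∂_t⁻¹`, `t` and
`P_i = ∂_{x_i} ∂_t⁻¹`. The operators in `x` and `s` form the commutative ring of symbols
`f = ∑ a_j(x) s^j`, with the commutation relations `[t, f] = s² ∂f/∂s`, `[P_i, f] = s ∂f/∂x_i`,
`[P_i, t] = - s P_i`, `[P_i, P_j] = 0`.
-/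

set_option autoImplicit false
set_option linter.unusedSectionVars false
set_option linter.unusedVariables false

namespace Pool.Fml

open Finset.HasAntidiagonal (antidiagonal mem_antidiagonal)
open MvPowerSeries

/-- Formal power series in `x_1, …, x_d` and `s = ∂_t⁻¹`: the variable `some i` is `x_i`, the
variable `none` is `s`. -/
abbrev Ser (d : ℕ) := MvPowerSeries (Option (Fin d)) ℂ

/-- A formal symbol: `f = ∑ a_j(x) s^j` where all the `a_j` converge on a common polydisc. -/
def IsFormal {d : ℕ} (f : Ser d) : Prop :=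
  ∃ R : ℝ, 0 < R ∧ ∀ j : ℕ, ∃ C : ℝ, ∀ m : Option (Fin d) →₀ ℕ, m none = j →
    ‖coeff m f‖ ≤ C * R ^ m.degree

/-- A microdifferential symbol: `f = ∑ a_j(x) s^j` where the `a_j` converge on a common polydisc
and are bounded there by `C^(j+1) j!`. -/
def IsMicro {d : ℕ} (f : Ser d) : Prop :=
  ∃ C : ℝ, ∀ m : Option (Fin d) →₀ ℕ, ‖coeff m f‖ ≤ C ^ (m.degree + 1) * (m none).factorial

/-- A ring of symbols: a subalgebra of `ℂ[[x, s]]` which contains the variables and is stable under
the partial derivatives. -/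
structure SymRing (d : ℕ) where
  /-- the underlying subalgebra -/
  alg : Subalgebra ℂ (Ser d)
  X_mem : ∀ i, (X i : Ser d) ∈ alg
  pd_mem : ∀ i, ∀ f ∈ alg, pderiv ℂ i f ∈ alg

section closure

variable {d : ℕ}

lemma norm_coeff_mul_le (f g : Ser d) (m : Option (Fin d) →₀ ℕ) :
    ‖coeff m (f * g)‖ ≤ ∑ p ∈ antidiagonal m, ‖coeff p.1 f‖ * ‖coeff p.2 g‖ := by
  rw [coeff_mul]
  exact (norm_sum_le _ _).trans (le_of_eq (by simp only [norm_mul]))

lemma norm_coeff_algebraMap (c : ℂ) (m : Option (Fin d) →₀ ℕ) :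
    ‖coeff m (algebraMap ℂ (Ser d) c)‖ = if m = 0 then ‖c‖ else 0 := by
  classical
  rw [MvPowerSeries.algebraMap_apply, coeff_C]
  split_ifs <;> simp

lemma norm_coeff_pderiv (i : Option (Fin d)) (f : Ser d) (m : Option (Fin d) →₀ ℕ) :
    ‖coeff m (pderiv ℂ i f)‖ = ‖coeff (m + Finsupp.single i 1) f‖ * ((m i : ℝ) + 1) := by
  rw [coeff_pderiv, norm_mul]
  congr 1
  have : ((m i : ℂ) + 1) = ((m i + 1 : ℕ) : ℂ) := by push_cast; rfl
  rw [this, Complex.norm_natCast]
  push_cast; rfl

lemma isFormal_iff (f : Ser d) : IsFormal f ↔ Tame fun m => ‖coeff m f‖ := Iff.rfl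

lemma isFormal_of_support {f : Ser d} (s : Finset (Option (Fin d) →₀ ℕ))
    (h : ∀ m, m ∉ s → coeff m f = 0) : IsFormal f := by
  refine ⟨1, one_pos, fun j => ⟨∑ m ∈ s, ‖coeff m f‖, fun m _ => ?_⟩⟩
  rw [one_pow, mul_one]
  by_cases hm : m ∈ s
  · exact Finset.single_le_sum (f := fun m => ‖coeff m f‖) (fun _ _ => norm_nonneg _) hm
  · rw [h m hm, norm_zero]; exact Finset.sum_nonneg fun _ _ => norm_nonneg _

lemma isFormal_mul {f g : Ser d} (hf : IsFormal f) (hg : IsFormal g) : IsFormal (f * g) :=
  Tame.conv (fun _ => norm_nonneg _) (fun _ => norm_nonneg _)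
    (fun _ => norm_nonneg _) hf hg (norm_coeff_mul_le f g)

lemma isFormal_add {f g : Ser d} (hf : IsFormal f) (hg : IsFormal g) : IsFormal (f + g) :=
  (Tame.add hf hg).mono fun m => by rw [map_add]; exact norm_add_le _ _

lemma isFormal_const (c : ℂ) : IsFormal (algebraMap ℂ (Ser d) c) :=
  isFormal_of_support {0} fun m hm => by
    rw [← norm_eq_zero, norm_coeff_algebraMap, if_neg (by simpa using hm)]

lemma isFormal_X (i : Option (Fin d)) : IsFormal (X i : Ser d) :=
  isFormal_of_support {Finsupp.single i 1} fun m hm => by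
    classical
    rw [coeff_X, if_neg (by simpa using hm)]

lemma isFormal_pderiv (i : Option (Fin d)) (f : Ser d) (hf : IsFormal f) :
    IsFormal (pderiv ℂ i f) :=
  Tame.shift (fun _ => norm_nonneg _) hf i fun m => (norm_coeff_pderiv i f m).le

/-- The ring of formal symbols. -/
def formal (d : ℕ) : SymRing d where
  alg :=
    { carrier := {f | IsFormal f}
      mul_mem' := isFormal_mul
      add_mem' := isFormal_add
      algebraMap_mem' := isFormal_const }
  X_mem := isFormal_X
  pd_mem := isFormal_pderiv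

lemma exp_iff {a : (Option (Fin d) →₀ ℕ) → ℝ} (ha : ∀ m, 0 ≤ a m) :
    (∃ C : ℝ, ∀ m, a m ≤ C ^ (m.degree + 1)) ↔
      ∃ ρ : ℝ, 0 < ρ ∧ Summable fun m => a m * om ρ (fun _ => 1) m := by
  constructor
  · rintro ⟨C, hC⟩
    set D : ℝ := max |C| 1 with hD
    have hD1 : 1 ≤ D := le_max_right _ _
    have hD0 : 0 < D := by linarith
    have hCD : ∀ m, a m ≤ D * D ^ m.degree := fun m => by
      rw [← pow_succ']
      refine (hC m).trans ((le_abs_self _).trans ?_)
      rw [abs_pow]
      exact pow_le_pow_left₀ (abs_nonneg _) (le_max_left _ _) _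
    refine ⟨1 / (2 * D), by positivity, ?_⟩
    refine Summable.of_nonneg_of_le (fun m => mul_nonneg (ha m) (by rw [om]; positivity))
      (fun m => ?_) ((summable_deg (ι := Option (Fin d)) (1 / 2) (by norm_num)
        (by norm_num)).mul_left D)
    have e : D ^ m.degree * (1 / (2 * D)) ^ m.degree = (1 / 2) ^ m.degree := by
      rw [← mul_pow]; congr 1; field_simp
    calc a m * om (1 / (2 * D)) (fun _ => 1) m ≤ D * D ^ m.degree * om (1 / (2 * D)) (fun _ => 1) m :=
          mul_le_mul_of_nonneg_right (hCD m) (by rw [om]; positivity)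
      _ = D * (1 / 2) ^ m.degree := by rw [om, mul_one, mul_assoc, e]
  · rintro ⟨ρ, hρ, h⟩
    set S := ∑' m, a m * om ρ (fun _ => 1) m with hS
    have hS0 : 0 ≤ S := tsum_nonneg fun m => mul_nonneg (ha m) (by rw [om]; positivity)
    refine ⟨max S 1 * max (1 / ρ) 1, fun m => ?_⟩
    have h1 : a m * om ρ (fun _ => 1) m ≤ S :=
      h.le_tsum m fun m _ => mul_nonneg (ha m) (by rw [om]; positivity)
    have e : ρ ^ m.degree * (1 / ρ) ^ m.degree = 1 := by
      rw [← mul_pow, mul_one_div_cancel hρ.ne', one_pow]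
    have h2 : a m = a m * om ρ (fun _ => 1) m * (1 / ρ) ^ m.degree := by
      rw [om, mul_one, mul_assoc, e, mul_one]
    have h3 : S ≤ max S 1 ^ (m.degree + 1) :=
      (le_max_left S 1).trans (le_self_pow₀ (le_max_right _ _) (by omega))
    have h4 : (1 / ρ) ^ m.degree ≤ max (1 / ρ) 1 ^ (m.degree + 1) :=
      (pow_le_pow_left₀ (by positivity) (le_max_left _ _) _).trans
        (pow_le_pow_right₀ (le_max_right _ _) (by omega))
    rw [h2, mul_pow]
    exact mul_le_mul (h1.trans h3) h4 (by positivity) (by positivity)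

lemma isMicro_iff (f : Ser d) : IsMicro f ↔ ∃ ρ : ℝ, 0 < ρ ∧
    Summable fun m => ‖coeff m f‖ / (m none).factorial * om ρ (fun _ => 1) m := by
  rw [← exp_iff (fun m => by positivity)]
  refine exists_congr fun C => forall_congr' fun m => ?_
  rw [div_le_iff₀ (by positivity)]

lemma om_anti {ρ ρ' : ℝ} (h0 : 0 < ρ) (h : ρ ≤ ρ') (m : Option (Fin d) →₀ ℕ) :
    om ρ (fun _ => 1) m ≤ om ρ' (fun _ => 1) m := by
  rw [om, om, mul_one, mul_one]
  exact pow_le_pow_left₀ h0.le h _

lemma summable_anti {a : (Option (Fin d) →₀ ℕ) → ℝ} (ha : ∀ m, 0 ≤ a m) {ρ ρ' : ℝ} (h0 : 0 < ρ)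
    (h : ρ ≤ ρ') (hs : Summable fun m => a m * om ρ' (fun _ => 1) m) :
    Summable fun m => a m * om ρ (fun _ => 1) m :=
  Summable.of_nonneg_of_le (fun m => mul_nonneg (ha m) (by rw [om]; positivity))
    (fun m => mul_le_mul_of_nonneg_left (om_anti h0 h m) (ha m)) hs

lemma isMicro_mul {f g : Ser d} (hf : IsMicro f) (hg : IsMicro g) : IsMicro (f * g) := by
  simp only [isMicro_iff] at hf hg ⊢
  obtain ⟨ρ, hρ, hf⟩ := hf
  obtain ⟨ρ', hρ', hg⟩ := hg
  have h0 : 0 < min ρ ρ' := lt_min hρ hρ'
  refine ⟨min ρ ρ', h0, ?_⟩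
  refine conv_summable (om_sub_one h0) (fun m => by positivity) (fun m => by positivity)
    (fun m => by positivity) (summable_anti (fun m => by positivity) h0 (min_le_left _ _) hf)
    (summable_anti (fun m => by positivity) h0 (min_le_right _ _) hg) fun m => ?_
  refine (div_le_div_of_nonneg_right (norm_coeff_mul_le f g m) (by positivity)).trans ?_
  rw [Finset.sum_div]
  refine Finset.sum_le_sum fun p hp => ?_
  rw [mem_antidiagonal] at hp
  have h1 : ((p.1 none).factorial : ℝ) * (p.2 none).factorial ≤ (m none).factorial := by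
    rw [← hp, Finsupp.add_apply]
    exact_mod_cast Nat.le_of_dvd (Nat.factorial_pos _) (Nat.factorial_mul_factorial_dvd_factorial_add _ _)
  rw [div_mul_div_comm]
  exact div_le_div_of_nonneg_left (by positivity) (by positivity) h1

lemma isMicro_add {f g : Ser d} (hf : IsMicro f) (hg : IsMicro g) : IsMicro (f + g) := by
  simp only [isMicro_iff] at hf hg ⊢
  obtain ⟨ρ, hρ, hf⟩ := hf
  obtain ⟨ρ', hρ', hg⟩ := hg
  have h0 : 0 < min ρ ρ' := lt_min hρ hρ'
  refine ⟨min ρ ρ', h0, ?_⟩
  refine Summable.of_nonneg_of_le (fun m => mul_nonneg (by positivity)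
    (by rw [om]; positivity)) (fun m => ?_)
    ((summable_anti (fun m => by positivity) h0 (min_le_left _ _) hf).add
    (summable_anti (fun m => by positivity) h0 (min_le_right _ _) hg))
  rw [← add_mul, ← add_div, map_add]
  refine mul_le_mul_of_nonneg_right (div_le_div_of_nonneg_right (norm_add_le _ _)
    (by positivity)) (by rw [om]; positivity)

lemma isMicro_const (c : ℂ) : IsMicro (algebraMap ℂ (Ser d) c) := by
  refine ⟨‖c‖, fun m => ?_⟩
  rw [norm_coeff_algebraMap]
  split_ifs with h
  · subst h; simp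
  · positivity

lemma isMicro_X (i : Option (Fin d)) : IsMicro (X i : Ser d) := by
  classical
  refine ⟨1, fun m => ?_⟩
  rw [coeff_X, one_pow, one_mul]
  have : (1 : ℝ) ≤ (m none).factorial := by exact_mod_cast Nat.factorial_pos _
  split_ifs
  · simpa using this
  · simp

lemma isMicro_pderiv (i : Option (Fin d)) (f : Ser d) (hf : IsMicro f) :
    IsMicro (pderiv ℂ i f) := by
  obtain ⟨C, hC⟩ := hf
  set D : ℝ := max |C| 1 with hD
  have hD1 : 1 ≤ D := le_max_right _ _
  have hD0 : 0 < D := by linarith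
  have hCD : ∀ m, ‖coeff m f‖ ≤ D ^ (m.degree + 1) * (m none).factorial := fun m => by
    refine (hC m).trans (mul_le_mul_of_nonneg_right ((le_abs_self _).trans ?_) (by positivity))
    rw [abs_pow]
    exact pow_le_pow_left₀ (abs_nonneg _) (le_max_left _ _) _
  refine ⟨4 * D ^ 2, fun m => ?_⟩
  rw [norm_coeff_pderiv]
  have h3 : ∀ i, ((m i : ℝ) + 1) ≤ 2 ^ (m.degree + 1) := fun i => by
    have h2 : m i ≤ m.degree := by
      rw [Finsupp.degree_eq_sum]
      exact Finset.single_le_sum (f := fun i => m i) (fun _ _ => Nat.zero_le _)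
        (Finset.mem_univ i)
    have h3 : m.degree + 1 < 2 ^ (m.degree + 1) := Nat.lt_two_pow_self
    have h4 : m i + 1 ≤ 2 ^ (m.degree + 1) := by omega
    exact_mod_cast h4
  have h5 : (((m + Finsupp.single i 1 : Option (Fin d) →₀ ℕ) none).factorial : ℝ)
      ≤ 2 ^ (m.degree + 1) * (m none).factorial := by
    rcases eq_or_ne i none with h | h
    · subst h
      rw [Finsupp.add_apply, Finsupp.single_eq_same, Nat.factorial_succ]
      push_cast
      exact mul_le_mul_of_nonneg_right (h3 none) (by positivity)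
    · rw [Finsupp.add_apply, Finsupp.single_eq_of_ne h.symm, add_zero]
      exact le_mul_of_one_le_left (by positivity) (one_le_pow₀ (by norm_num))
  have h6 : (m + Finsupp.single i 1 : Option (Fin d) →₀ ℕ).degree = m.degree + 1 := by
    rw [map_add, Finsupp.degree_single]
  calc ‖coeff (m + Finsupp.single i 1) f‖ * ((m i : ℝ) + 1)
      ≤ (D ^ (m.degree + 1 + 1) * (2 ^ (m.degree + 1) * (m none).factorial)) * 2 ^ (m.degree + 1) := by
        refine mul_le_mul ((hCD _).trans ?_) (h3 i) (by positivity) (by positivity)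
        rw [h6]
        exact mul_le_mul_of_nonneg_left h5 (by positivity)
    _ ≤ ((D ^ 2) ^ (m.degree + 1) * (2 ^ (m.degree + 1) * (m none).factorial)) * 2 ^ (m.degree + 1) := by
        refine mul_le_mul_of_nonneg_right (mul_le_mul_of_nonneg_right ?_ (by positivity))
          (by positivity)
        rw [← pow_mul]
        exact pow_le_pow_right₀ hD1 (by omega)
    _ = (4 * D ^ 2) ^ (m.degree + 1) * (m none).factorial := by
        have : (4 : ℝ) ^ (m.degree + 1) = 2 ^ (m.degree + 1) * 2 ^ (m.degree + 1) := by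
          rw [← mul_pow]; norm_num
        rw [mul_pow, this]; ring

/-- The ring of microdifferential symbols. -/
def micro (d : ℕ) : SymRing d where
  alg :=
    { carrier := {f | IsMicro f}
      mul_mem' := isMicro_mul
      add_mem' := isMicro_add
      algebraMap_mem' := isMicro_const }
  X_mem := isMicro_X
  pd_mem := isMicro_pderiv

lemma micro_le_formal : (micro d).alg ≤ (formal d).alg := by
  rintro f ⟨C, hC⟩
  refine ⟨max |C| 1, lt_max_of_lt_right one_pos, fun j =>
    ⟨max |C| 1 * j.factorial, fun m hm => (hC m).trans ?_⟩⟩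
  subst hm
  have : C ^ (m.degree + 1) ≤ max |C| 1 ^ (m.degree + 1) := by
    refine (le_abs_self _).trans ?_
    rw [abs_pow]
    exact pow_le_pow_left₀ (abs_nonneg _) (le_max_left _ _) _
  calc C ^ (m.degree + 1) * (m none).factorial ≤ max |C| 1 ^ (m.degree + 1) * (m none).factorial :=
        mul_le_mul_of_nonneg_right this (by positivity)
    _ = _ := by ring

end closure

namespace SymRing

variable {d : ℕ} (A : SymRing d)

/-- the variable `x_i` (for `some i`) or `s` (for `none`) as an element of the ring -/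
noncomputable def var (i : Option (Fin d)) : A.alg := ⟨X i, A.X_mem i⟩

/-- the partial derivative with respect to the variable `i` -/
noncomputable def pd (i : Option (Fin d)) (f : A.alg) : A.alg :=
  ⟨pderiv ℂ i (f : Ser d), A.pd_mem i f f.2⟩

end SymRing

/-- A free lattice of finite rank over a ring of symbols `A`, with operators `T = t` and
`P_i = ∂_{x_i} ∂_t⁻¹` which satisfy the commutation relations of microdifferential operators. -/
structure Lattice {d : ℕ} (A : SymRing d) where
  /-- the lattice -/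
  L : Type
  [grp : AddCommGroup L]
  [mod : Module A.alg L]
  [free : Module.Free A.alg L]
  [fin : Module.Finite A.alg L]
  /-- the action of `t` -/
  T : AddMonoid.End L
  /-- the action of `P_i` -/
  P : Fin d → AddMonoid.End L
  T_smul : ∀ (f : A.alg) (u : L), T (f • u) = f • T u + (A.var none ^ 2 * A.pd none f) • u
  P_smul : ∀ (i : Fin d) (f : A.alg) (u : L),
    P i (f • u) = f • P i u + (A.var none * A.pd (some i) f) • u
  P_T : ∀ (i : Fin d) (u : L), P i (T u) - T (P i u) = - (A.var none • P i u)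
  P_P : ∀ (i j : Fin d) (u : L), P i (P j u) = P j (P i u)

namespace Lattice

variable {d : ℕ} {A : SymRing d} (M : Lattice A)

instance : AddCommGroup M.L := M.grp
instance : Module A.alg M.L := M.mod
instance : Module.Free A.alg M.L := M.free
instance : Module.Finite A.alg M.L := M.fin

/-- multiplication by a symbol -/
noncomputable def mul (f : A.alg) : AddMonoid.End M.L := DistribSMul.toAddMonoidHom M.L f

/-- the ring of operators of order `≤ 0` generated by the symbols, `t` and the `P_i` -/
noncomputable def ops : Subring (AddMonoid.End M.L) :=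
  Subring.closure (Set.range M.mul ∪ ({M.T} ∪ Set.range M.P))

/-- `F` maps the lattice `L` into `s L`: the principal symbol of order `0` of `F` annihilates
`L / s L`. -/
def Kills (F : AddMonoid.End M.L) : Prop := ∀ u, ∃ v, F u = A.var none • v

/-- the principal symbol of order `0` of `F` vanishes on the support `Λ` of `L / s L`, that is, it
acts nilpotently on `L / s L` -/
def Vanishes (F : AddMonoid.End M.L) : Prop := ∃ n : ℕ, M.Kills (F ^ n)

/-- Regularity, `J_Λ L ⊆ L`: if the symbol of `F` vanishes on `Λ` then `s⁻¹ F` maps `L` to `L`. -/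
def Regular : Prop := ∀ F ∈ M.ops, M.Vanishes F → M.Kills F

/-- `s` times the Euler operator `κ t ∂_t + ∑ w_i x_i ∂_{x_i}` -/
noncomputable def euler (w : Fin d → ℕ) (κ : ℕ) : AddMonoid.End M.L :=
  κ • M.T + ∑ i, w i • (M.mul (A.var (some i)) * M.P i)

/-- `Λ` is quasi-homogeneous for the weights `w_i` of `x_i` and `κ` of `t`: the symbol of the
Euler operator vanishes on `Λ`. -/
def QuasiHomogeneous (w : Fin d → ℕ) (κ : ℕ) : Prop := M.Vanishes (M.euler w κ)

end Lattice

/-- `M` is obtained from `N` by extension of scalars. -/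
def IsExtension {d : ℕ} {A B : SymRing d} (h : A.alg ≤ B.alg) (N : Lattice A) (M : Lattice B) :
    Prop :=
  ∃ φ : N.L →+ M.L, (∀ f u, φ (f • u) = Subalgebra.inclusion h f • φ u) ∧
    (∀ u, φ (N.T u) = M.T (φ u)) ∧ (∀ i u, φ (N.P i u) = M.P i (φ u)) ∧
    ∃ (r : ℕ) (b : Module.Basis (Fin r) A.alg N.L) (c : Module.Basis (Fin r) B.alg M.L),
      ∀ j, φ (b j) = c j

end Pool.Fml
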