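import Pool.Agent.Fml.Main

set_option autoImplicit false
set_option linter.unusedSectionVars false
set_option linter.unusedVariables false

namespace Pool.Fml

open Finset.HasAntidiagonal (antidiagonal mem_antidiagonal)
open MvPowerSeries

variable {d : ℕ}

/-- no coefficient with `s`-degree `> K` -/
def Low (K : ℕ) (f : Ser d) : Prop := ∀ m, K < m none → coeff m f = 0

lemma Low.mono {K K' : ℕ} (h : K ≤ K') {f : Ser d} (hf : Low K f) : Low K' f :=
  fun m hm => hf m (by omega)

lemma Low.pderiv {K : ℕ} {f : Ser d} (hf : Low K f) (i : Option (Fin d)) :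
    Low K (pderiv ℂ i f) := fun m hm => by
  rw [coeff_pderiv, hf, zero_mul]
  rw [Finsupp.add_apply]; omega

lemma Low.X_mul {K : ℕ} {f : Ser d} (hf : Low K f) : Low (K + 1) (X none * f) := fun m hm => by
  classical
  rw [X, coeff_monomial_mul]
  split_ifs with h
  · rw [hf, mul_zero]
    rw [Finsupp.tsub_apply, Finsupp.single_eq_same]; omega
  · rfl

/-- division by `s` preserves microdifferential symbols -/
lemma IsMicro.div {f g : Ser d} (hf : IsMicro f) (h : f = X none * g) : IsMicro g := by
  classical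
  obtain ⟨C, hC⟩ := hf
  set D : ℝ := max |C| 1 with hD
  have hD1 : 1 ≤ D := le_max_right _ _
  have hD0 : 0 < D := by linarith
  have hCD : ∀ m, ‖coeff m f‖ ≤ D ^ (m.degree + 1) * (m none).factorial := fun m => by
    refine (hC m).trans (mul_le_mul_of_nonneg_right ((le_abs_self _).trans ?_) (by positivity))
    rw [abs_pow]
    exact pow_le_pow_left₀ (abs_nonneg _) (le_max_left _ _) _
  refine ⟨2 * D ^ 2, fun m => ?_⟩
  have h1 : coeff m g = coeff (m + Finsupp.single none 1) f := by
    rw [h, X, coeff_monomial_mul, if_pos (self_le_add_left _ _), one_mul, add_tsub_cancel_right]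
  have h6 : (m + Finsupp.single none 1 : Option (Fin d) →₀ ℕ).degree = m.degree + 1 := by
    rw [map_add, Finsupp.degree_single]
  have h3 : ((m none : ℝ) + 1) ≤ 2 ^ (m.degree + 1) := by
    have h2 : m none ≤ m.degree := by
      rw [Finsupp.degree_eq_sum]
      exact Finset.single_le_sum (f := fun i => m i) (fun _ _ => Nat.zero_le _)
        (Finset.mem_univ none)
    have h3 : m.degree + 1 < 2 ^ (m.degree + 1) := Nat.lt_two_pow_self
    have h4 : m none + 1 ≤ 2 ^ (m.degree + 1) := by omega
    exact_mod_cast h4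
  rw [h1]
  refine (hCD _).trans ?_
  rw [h6, Finsupp.add_apply, Finsupp.single_eq_same, Nat.factorial_succ]
  push_cast
  calc D ^ (m.degree + 1 + 1) * (((m none : ℝ) + 1) * (m none).factorial)
      ≤ (D ^ 2) ^ (m.degree + 1) * (2 ^ (m.degree + 1) * (m none).factorial) := by
        refine mul_le_mul ?_ (mul_le_mul_of_nonneg_right h3 (by positivity)) (by positivity)
          (by positivity)
        rw [← pow_mul]
        exact pow_le_pow_right₀ hD1 (by omega)
    _ = (2 * D ^ 2) ^ (m.degree + 1) * (m none).factorial := by rw [mul_pow]; ring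

namespace Lattice

/-- matrices over the ring of symbols, as matrices of power series -/
noncomputable def toSer {A : SymRing d} {n : Type} (Y : Matrix n n A.alg) : Matrix n n (Ser d) :=
  Y.map (fun f : A.alg => (f : Ser d))

/-- the basis adapted to the Euler operator -/
lemma exists_basis (M : Lattice (formal d)) (w : Fin d → ℕ) (κ : ℕ) (hκ : 0 < κ)
    (hE : M.Kills (M.euler w κ)) :
    ∃ (r : ℕ) (b : Module.Basis (Fin r) (formal d).alg M.L) (Θ : Matrix (Fin r) (Fin r) (formal d).alg)
      (K : ℕ), (∀ j, M.euler w κ (b j) = ∑ l, ((formal d).var none * Θ l j) • b l) ∧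
      ∀ i j, Low K (Θ i j : Ser d) := by
  classical
  set e := Module.finBasis (formal d).alg M.L with he
  set r := Module.finrank (formal d).alg M.L with hr
  choose v hv using fun j => hE (e j)
  set Θ : Matrix (Fin r) (Fin r) (formal d).alg := fun l j => e.repr (v j) l with hΘ
  have hEe : ∀ j, M.euler w κ (e j) = ∑ l, ((formal d).var none * Θ l j) • e l := fun j => by
    rw [hv]
    conv_lhs => rw [← e.sum_repr (v j), Finset.smul_sum]
    simp only [smul_smul]; rfl
  obtain ⟨K, G, H, hG, hH, hGH, heq⟩ := exists_gauge (SymRing.wts w κ)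
    (fun i j => (Θ i j : Ser d)) (fun i j => (Θ i j).2)
  have hinj : ∀ (Y Z : Matrix (Fin r) (Fin r) (formal d).alg),
      (∀ i j, (Y i j : Ser d) = Z i j) → Y = Z := fun Y Z h =>
    Matrix.ext fun i j => Subtype.ext (h i j)
  set G' : Matrix (Fin r) (Fin r) (formal d).alg := fun i j => ⟨G i j, hG i j⟩ with hG'
  set H' : Matrix (Fin r) (Fin r) (formal d).alg := fun i j => ⟨H i j, hH i j⟩ with hH'
  have hGH' : G' * H' = 1 := hinj _ _ fun i j => by
    rw [Matrix.mul_apply]
    push_cast
    have h1 : (G * H) i j = (1 : Matrix (Fin r) (Fin r) (Ser d)) i j := by rw [hGH]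
    rw [Matrix.mul_apply] at h1
    simp only [hG', hH']
    rw [h1]
    by_cases h : i = j
    · subst h; simp
    · rw [Matrix.one_apply_ne h, Matrix.one_apply_ne h]; rfl
  have hHG' : H' * G' = 1 := mul_eq_one_comm.1 hGH'
  set eqv : M.L ≃ₗ[(formal d).alg] M.L := LinearEquiv.ofLinearMap (Matrix.toLin e e G') (Matrix.toLin e e H')
    (by rw [← Matrix.toLin_mul, hGH', Matrix.toLin_one])
    (by rw [← Matrix.toLin_mul, hHG', Matrix.toLin_one]) with heqv
  set b := e.map eqv with hb
  have hbj : ∀ j, b j = ∑ l, G' l j • e l := fun j => by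
    rw [hb, Module.Basis.map_apply]
    exact Matrix.toLin_self e e G' j
  have hΘ'f : ∀ i j, IsFormal (tr (SymRing.wts w κ) K (fun i j => (Θ i j : Ser d)) i j) :=
    fun i j => Tame.mono (Θ i j).2 fun m => by
      have : coeff m (tr (SymRing.wts w κ) K (fun i j => (Θ i j : Ser d)) i j)
        = if Finsupp.weight (SymRing.wts w κ) m ≤ K then coeff m (Θ i j : Ser d) else 0 := rfl
      rw [this]
      split_ifs
      · exact le_rfl
      · rw [norm_zero]; exact norm_nonneg _
  set Θ' : Matrix (Fin r) (Fin r) (formal d).alg := fun i j =>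
    ⟨tr (SymRing.wts w κ) K (fun i j => (Θ i j : Ser d)) i j, hΘ'f i j⟩ with hΘ'
  have heq' : ∀ k j, ∑ l, Θ k l * G' l j + (formal d).eulA w κ (G' k j) = ∑ l, G' k l * Θ' l j := by
    intro k j
    refine Subtype.ext ?_
    have h1 := congrFun (congrFun heq k) j
    rw [Matrix.add_apply, Matrix.mul_apply, Matrix.mul_apply, eulM_apply] at h1
    push_cast
    rw [SymRing.coe_eulA]
    exact h1
  refine ⟨r, b, Θ', K, fun j => ?_, fun i j m hm => ?_⟩
  · have h1 : M.euler w κ (b j) = ∑ k, ((formal d).var none * (∑ l, Θ k l * G' l j + (formal d).eulA w κ (G' k j))) • e k := by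
      rw [hbj, map_sum]
      simp only [M.euler_smul, hEe, mul_add, add_smul, Finset.sum_add_distrib, Finset.mul_sum,
        Finset.sum_smul, Finset.smul_sum, smul_smul]
      rw [Finset.sum_comm]
      congr 1
      refine Finset.sum_congr rfl fun k _ => Finset.sum_congr rfl fun l _ => ?_
      congr 1; ring
    rw [h1]
    simp only [heq', hbj, Finset.mul_sum, Finset.sum_smul, Finset.smul_sum, smul_smul]
    rw [Finset.sum_comm]
    refine Finset.sum_congr rfl fun k _ => Finset.sum_congr rfl fun l _ => ?_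
    congr 1; ring
  · change (if Finsupp.weight (SymRing.wts w κ) m ≤ K then coeff m (Θ i j : Ser d) else 0) = 0
    rw [if_neg]
    rw [not_le]
    refine lt_of_lt_of_le hm ?_
    rw [Finsupp.weight_eq_sum]
    refine le_trans ?_ (Finset.single_le_sum (f := fun i => m i • (SymRing.wts w κ) i)
      (fun _ _ => Nat.zero_le _) (Finset.mem_univ none))
    exact Nat.le_mul_of_pos_right _ hκ

/-- the entries of the matrices of `T` and of the `P_i` in the adapted basis converge -/
lemma entries_micro (M : Lattice (formal d)) (w : Fin d → ℕ) (κ : ℕ) (hκ : 0 < κ) {r : ℕ}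
    (b : Module.Basis (Fin r) (formal d).alg M.L) (Θ : Matrix (Fin r) (Fin r) (formal d).alg)
    (K : ℕ) (hE : ∀ j, M.euler w κ (b j) = ∑ l, ((formal d).var none * Θ l j) • b l)
    (hK : ∀ i j, Low K (Θ i j : Ser d)) (Q : AddMonoid.End M.L)
    (q : (formal d).alg → (formal d).alg) (hQ : ∀ f u, Q (f • u) = f • Q u + q f • u)
    (e : ℤ) (hq : ∀ f, q ((formal d).var none * f) = e • ((formal d).var none * ((formal d).var none * f))
      + (formal d).var none * q f)
    (hqK : ∀ f : (formal d).alg, Low K (f : Ser d) → Low (K + 2) (q f : Ser d))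
    (c : ℤ) (hEQ : ∀ u, M.euler w κ (Q u) - Q (M.euler w κ u)
      = c • ((formal d).var none • Q u) - e • ((formal d).var none • M.euler w κ u))
    (k j : Fin r) : IsMicro (b.repr (Q (b j)) k : Ser d) := by
  classical
  have h1 := M.mat_eq b w κ Θ hE Q q hQ e hq c hEQ
  set Y : Matrix (Fin r) (Fin r) (formal d).alg := fun l j => b.repr (Q (b j)) l with hY
  have hlow : ∀ (K' : ℕ) (Z : Matrix (Fin r) (Fin r) (formal d).alg),
      (∀ i j, Low K' (Z i j : Ser d)) → ∀ m, K' < m none → cm m (toSer Z) = 0 := by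
    intro K' Z hZ m hm
    ext i j
    exact hZ i j m hm
  refine conv_of_eq (w := SymRing.wts w κ) hκ (K + 2) (c : ℂ) (toSer Θ) (toSer Y)
    (toSer fun i j => q (Θ i j)) (fun i j => (Θ i j).2) (fun i j => (Y i j).2)
    (fun i j => (q (Θ i j)).2) (hlow _ _ fun i j => (hK i j).mono (by omega))
    (hlow _ _ fun i j => hqK _ (hK i j)) ?_ k j
  intro m
  ext k j
  have h2 := congrArg (fun f : (formal d).alg => coeff m (f : Ser d)) (h1 k j)
  simp only [Subalgebra.coe_add, Subalgebra.coe_sub, map_add, map_sub, SymRing.coe_eulA,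
    coeff_eul] at h2
  rw [Matrix.add_apply, Matrix.smul_apply, cm_apply, cm_apply, cm_apply, Matrix.sub_apply,
    Matrix.mul_apply, Matrix.mul_apply, smul_eq_mul, sub_mul, map_sub]
  have h3 : coeff m (((c • b.repr (Q (b j)) k : (formal d).alg) : Ser d))
      = (c : ℂ) * coeff m ((b.repr (Q (b j)) k : (formal d).alg) : Ser d) := by
    have : (((c • b.repr (Q (b j)) k : (formal d).alg) : Ser d))
        = c • ((b.repr (Q (b j)) k : (formal d).alg) : Ser d) := rfl
    rw [this, map_zsmul, zsmul_eq_mul]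
  rw [h3] at h2
  push_cast at h2
  have h4 : ((toSer fun i j => q (Θ i j)) k j) = (q (Θ k j) : Ser d) := rfl
  rw [h4, ← h2]
  simp only [toSer, Matrix.map_apply, hY]
  ring

section build

/-- the operator `q + Y` on `A^r` -/
noncomputable def opr {A : SymRing d} {r : ℕ} (q : A.alg → A.alg)
    (hq : ∀ f g, q (f + g) = q f + q g) (Y : Matrix (Fin r) (Fin r) A.alg) :
    AddMonoid.End (Fin r → A.alg) where
  toFun u := fun l => q (u l) + ∑ j, Y l j * u j
  map_zero' := by
    have h0 : q 0 = 0 := by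
      have := hq 0 0
      rw [add_zero] at this
      exact left_eq_add.1 this
    funext l
    simp [h0]
  map_add' u v := by
    funext l
    simp only [Pi.add_apply, hq, mul_add, Finset.sum_add_distrib]
    abel

lemma opr_apply {A : SymRing d} {r : ℕ} (q : A.alg → A.alg)
    (hq : ∀ f g, q (f + g) = q f + q g) (Y : Matrix (Fin r) (Fin r) A.alg) (u : Fin r → A.alg)
    (l : Fin r) : opr q hq Y u l = q (u l) + ∑ j, Y l j * u j := rfl

lemma opr_smul {A : SymRing d} {r : ℕ} (q : A.alg → A.alg)
    (hq : ∀ f g, q (f + g) = q f + q g) (hq2 : ∀ f g, q (f * g) = f * q g + q f * g)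
    (Y : Matrix (Fin r) (Fin r) A.alg) (f : A.alg) (u : Fin r → A.alg) :
    opr q hq Y (f • u) = f • opr q hq Y u + q f • u := by
  funext l
  simp only [opr_apply, Pi.smul_apply, Pi.add_apply, smul_eq_mul, hq2, mul_add, Finset.mul_sum]
  have : ∀ j, Y l j * (f * u j) = f * (Y l j * u j) := fun j => by ring
  simp only [this]
  abel

/-- the derivation `s² ∂_s` -/
noncomputable def qT (A : SymRing d) (f : A.alg) : A.alg := A.var none ^ 2 * A.pd none f

/-- the derivation `s ∂_{x_i}` -/
noncomputable def qP (A : SymRing d) (i : Fin d) (f : A.alg) : A.alg :=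
  A.var none * A.pd (some i) f

lemma qT_add (A : SymRing d) (f g : A.alg) : qT A (f + g) = qT A f + qT A g := by
  simp only [qT, A.pd_add, mul_add]

lemma qP_add (A : SymRing d) (i : Fin d) (f g : A.alg) : qP A i (f + g) = qP A i f + qP A i g := by
  simp only [qP, A.pd_add, mul_add]

lemma qT_mul (A : SymRing d) (f g : A.alg) : qT A (f * g) = f * qT A g + qT A f * g := by
  simp only [qT, A.pd_mul]; ring

lemma qP_mul (A : SymRing d) (i : Fin d) (f g : A.alg) :
    qP A i (f * g) = f * qP A i g + qP A i f * g := by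
  simp only [qP, A.pd_mul]; ring

variable (M : Lattice (formal d)) {r : ℕ} (b : Module.Basis (Fin r) (formal d).alg M.L)

/-- inclusion of the rings of symbols -/
noncomputable def inc (d : ℕ) : (micro d).alg →ₐ[ℂ] (formal d).alg :=
  Subalgebra.inclusion micro_le_formal

lemma coe_inc (f : (micro d).alg) : ((inc d f : (formal d).alg) : Ser d) = f := rfl

lemma inc_inj {f g : (micro d).alg} (h : inc d f = inc d g) : f = g :=
  Subtype.ext (congrArg (fun x : (formal d).alg => (x : Ser d)) h)

/-- the map `A^r → L` -/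
noncomputable def phi : (Fin r → (micro d).alg) →+ M.L where
  toFun u := ∑ l, inc d (u l) • b l
  map_zero' := by simp
  map_add' u v := by simp [add_smul, Finset.sum_add_distrib]

lemma phi_apply (u : Fin r → (micro d).alg) : phi M b u = ∑ l, inc d (u l) • b l := rfl

lemma coord_phi (u : Fin r → (micro d).alg) (l : Fin r) : b.coord l (phi M b u) = inc d (u l) := by
  rw [phi_apply, b.coord_apply, b.repr_sum_self]

lemma phi_inj {u v : Fin r → (micro d).alg} (h : phi M b u = phi M b v) : u = v := by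
  funext l
  refine inc_inj ?_
  rw [← coord_phi M b u l, ← coord_phi M b v l, h]

lemma phi_smul (f : (micro d).alg) (u : Fin r → (micro d).alg) :
    phi M b (f • u) = inc d f • phi M b u := by
  simp only [phi_apply, Pi.smul_apply, smul_eq_mul, map_mul, Finset.smul_sum, smul_smul]

lemma phi_opr (q : (micro d).alg → (micro d).alg) (hq : ∀ f g, q (f + g) = q f + q g)
    (q' : (formal d).alg → (formal d).alg) (hqq : ∀ f, inc d (q f) = q' (inc d f))
    (Q : AddMonoid.End M.L) (hQ : ∀ f u, Q (f • u) = f • Q u + q' f • u)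
    (Y : Matrix (Fin r) (Fin r) (micro d).alg) (hY : ∀ l j, inc d (Y l j) = b.repr (Q (b j)) l)
    (u : Fin r → (micro d).alg) : phi M b (opr q hq Y u) = Q (phi M b u) := by
  have hQb : ∀ j, Q (b j) = ∑ l, inc d (Y l j) • b l := fun j => by
    simp only [hY]; exact (b.sum_repr _).symm
  rw [phi_apply, phi_apply, map_sum]
  simp only [opr_apply, hQ, hqq, map_add, map_sum, map_mul, add_smul, Finset.sum_add_distrib, hQb,
    Finset.sum_smul, Finset.smul_sum, smul_smul]
  rw [add_comm]
  congr 1
  rw [Finset.sum_comm]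
  refine Finset.sum_congr rfl fun k _ => Finset.sum_congr rfl fun l _ => ?_
  congr 1; ring

/-- the convergent lattice spanned by a basis with convergent matrices -/
noncomputable def descend (YT : Matrix (Fin r) (Fin r) (micro d).alg)
    (hYT : ∀ l j, inc d (YT l j) = b.repr (M.T (b j)) l)
    (YP : Fin d → Matrix (Fin r) (Fin r) (micro d).alg)
    (hYP : ∀ i l j, inc d (YP i l j) = b.repr (M.P i (b j)) l) : Lattice (micro d) :=
  have hT : ∀ u, phi M b (opr (qT (micro d)) (qT_add _) YT u) = M.T (phi M b u) :=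
    phi_opr M b _ (qT_add _) (qT (formal d)) (fun f => Subtype.ext rfl) M.T M.T_smul YT hYT
  have hP : ∀ i u, phi M b (opr (qP (micro d) i) (qP_add _ i) (YP i) u) = M.P i (phi M b u) :=
    fun i => phi_opr M b _ (qP_add _ i) (qP (formal d) i) (fun f => Subtype.ext rfl) (M.P i)
      (M.P_smul i) (YP i) (hYP i)
  { L := Fin r → (micro d).alg
    T := opr (qT (micro d)) (qT_add _) YT
    P := fun i => opr (qP (micro d) i) (qP_add _ i) (YP i)
    T_smul := fun f u => opr_smul _ _ (qT_mul _) YT f u
    P_smul := fun i f u => opr_smul _ _ (qP_mul _ i) (YP i) f u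
    P_T := fun i u => phi_inj M b (by
      rw [map_sub, hP, hT, hT, hP, M.P_T, map_neg, phi_smul, hP]; rfl)
    P_P := fun i j u => phi_inj M b (by rw [hP, hP, hP, hP, M.P_P]) }

end build

section regular

lemma ops_induction {A : SymRing d} (M : Lattice A) (p : AddMonoid.End M.L → Prop)
    (hmul : ∀ f, p (M.mul f)) (hT : p M.T) (hP : ∀ i, p (M.P i)) (h0 : p 0) (h1 : p 1)
    (hadd : ∀ F G, F ∈ M.ops → G ∈ M.ops → p F → p G → p (F + G)) (hneg : ∀ F, F ∈ M.ops → p F → p (-F))
    (hmm : ∀ F G, F ∈ M.ops → G ∈ M.ops → p F → p G → p (F * G)) (F : AddMonoid.End M.L) (hF : F ∈ M.ops) : p F := by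
  refine Subring.closure_induction (p := fun F _ => p F) ?_ h0 h1
    (fun F G hF hG h h' => hadd F G hF hG h h') (fun F hF h => hneg F hF h)
    (fun F G hF hG h h' => hmm F G hF hG h h') hF
  rintro F (⟨f, rfl⟩ | rfl | ⟨i, rfl⟩)
  · exact hmul f
  · exact hT
  · exact hP i

lemma ops_linear {A : SymRing d} (M : Lattice A) (F : AddMonoid.End M.L) (hF : F ∈ M.ops) :
    ∀ (f : A.alg) (u : M.L), ∃ v, F (f • u) = f • F u + A.var none • v := by
  refine ops_induction M (fun F => ∀ (f : A.alg) (u : M.L), ∃ v, F (f • u)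
    = f • F u + A.var none • v) ?_ ?_ ?_ ?_ ?_ ?_ ?_ ?_ F hF
  · intro g f u
    exact ⟨0, by rw [mul_apply, mul_apply, smul_zero, add_zero, smul_comm]⟩
  · intro f u
    exact ⟨(A.var none * A.pd none f) • u, by
      rw [M.T_smul, smul_smul, pow_two, mul_assoc]⟩
  · intro i f u
    exact ⟨A.pd (some i) f • u, by rw [M.P_smul, smul_smul]⟩
  · intro f u
    exact ⟨0, by
      change (0 : M.L) = f • (0 : M.L) + A.var none • (0 : M.L)
      rw [smul_zero, smul_zero, add_zero]⟩
  · intro f u
    exact ⟨0, by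
      change f • u = f • u + A.var none • (0 : M.L)
      rw [smul_zero, add_zero]⟩
  · intro F G _ _ hF hG f u
    obtain ⟨v, hv⟩ := hF f u
    obtain ⟨v', hv'⟩ := hG f u
    refine ⟨v + v', ?_⟩
    change F (f • u) + G (f • u) = f • (F u + G u) + _
    rw [hv, hv', smul_add, smul_add]; abel
  · intro F _ hF f u
    obtain ⟨v, hv⟩ := hF f u
    refine ⟨-v, ?_⟩
    change - F (f • u) = f • (- F u) + _
    rw [hv, smul_neg, smul_neg]; abel
  · intro F G _ _ hF hG f u
    obtain ⟨v, hv⟩ := hG f u
    obtain ⟨v', hv'⟩ := hF f (G u)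
    obtain ⟨v'', hv''⟩ := hF (A.var none) v
    refine ⟨v' + (F v + v''), ?_⟩
    change F (G (f • u)) = f • F (G u) + _
    rw [hv, map_add, hv', hv'', smul_add, smul_add]
    abel

variable {A B : SymRing d} {h : A.alg ≤ B.alg} {N : Lattice A} {M : Lattice B}

lemma regular_of_extension (hext : IsExtension h N M) (hM : M.Regular)
    (hdiv : ∀ f g : Ser d, f ∈ A.alg → f = X none * g → g ∈ A.alg) : N.Regular := by
  obtain ⟨φ, hφ, hφT, hφP, r, b, c, hbc⟩ := hext
  have hlift : ∀ F ∈ N.ops, ∃ G ∈ M.ops, ∀ u, φ (F u) = G (φ u) := by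
    intro F hF
    refine ops_induction N (fun F => ∃ G ∈ M.ops, ∀ u, φ (F u) = G (φ u)) ?_ ?_ ?_ ?_ ?_ ?_ ?_ ?_
      F hF
    · intro f
      exact ⟨M.mul (Subalgebra.inclusion h f), Subring.subset_closure (Or.inl ⟨_, rfl⟩),
        fun u => hφ f u⟩
    · exact ⟨M.T, Subring.subset_closure (Or.inr (Or.inl rfl)), hφT⟩
    · exact fun i => ⟨M.P i, Subring.subset_closure (Or.inr (Or.inr ⟨i, rfl⟩)), hφP i⟩
    · exact ⟨0, zero_mem _, fun u => map_zero φ⟩
    · exact ⟨1, one_mem _, fun u => rfl⟩
    · rintro F F' _ _ ⟨G, hG, h1⟩ ⟨G', hG', h2⟩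
      refine ⟨G + G', add_mem hG hG', fun u => ?_⟩
      change φ (F u + F' u) = G (φ u) + G' (φ u)
      rw [map_add, h1, h2]
    · rintro F _ ⟨G, hG, h1⟩
      refine ⟨-G, neg_mem hG, fun u => ?_⟩
      change φ (- F u) = - G (φ u)
      rw [map_neg, h1]
    · rintro F F' _ _ ⟨G, hG, h1⟩ ⟨G', hG', h2⟩
      refine ⟨G * G', mul_mem hG hG', fun u => ?_⟩
      change φ (F (F' u)) = G (G' (φ u))
      rw [h1, h2]
  have hφr : ∀ u, φ u = ∑ l, Subalgebra.inclusion h (b.repr u l) • c l := fun u => by
    conv_lhs => rw [← b.sum_repr u, map_sum]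
    simp only [hφ, hbc]
  intro F hF ⟨n, hn⟩
  obtain ⟨G, hG, hFG⟩ := hlift F hF
  have hpow : ∀ (k : ℕ) u, φ ((F ^ k) u) = (G ^ k) (φ u) := by
    intro k
    induction k with
    | zero => intro u; rfl
    | succ k ih =>
      intro u
      rw [pow_succ, pow_succ]
      change φ ((F ^ k) (F u)) = (G ^ k) (G (φ u))
      rw [ih, hFG]
  have hGn : G ^ n ∈ M.ops := pow_mem hG n
  have hkill : M.Kills (G ^ n) := by
    intro v
    choose w hw using fun l => ops_linear M (G ^ n) hGn (c.repr v l) (c l)
    choose z hz using fun l => hn (b l)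
    refine ⟨∑ l, (c.repr v l • φ (z l) + w l), ?_⟩
    conv_lhs => rw [← c.sum_repr v, map_sum]
    rw [Finset.smul_sum]
    refine Finset.sum_congr rfl fun l _ => ?_
    rw [hw, ← hbc, ← hpow, hz, hφ, smul_add, smul_comm (c.repr v l)]
    rfl
  have hK := hM G hG ⟨n, hkill⟩
  intro u
  obtain ⟨v, hv⟩ := hK (φ u)
  rw [← hFG] at hv
  have h1 : ∀ l, Subalgebra.inclusion h (b.repr (F u) l) = B.var none * c.repr v l := by
    intro l
    have h2 := congrArg (c.coord l) hv
    rw [hφr, map_smul, c.coord_apply, c.coord_apply, c.repr_sum_self, smul_eq_mul] at h2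
    exact h2
  have h3 : ∀ l, ((b.repr (F u) l : A.alg) : Ser d) = X none * ((c.repr v l : B.alg) : Ser d) :=
    fun l => congrArg (fun x : B.alg => (x : Ser d)) (h1 l)
  have h4 : ∀ l, ((c.repr v l : B.alg) : Ser d) ∈ A.alg := fun l =>
    hdiv _ _ (b.repr (F u) l).2 (h3 l)
  refine ⟨∑ l, (⟨_, h4 l⟩ : A.alg) • b l, ?_⟩
  conv_lhs => rw [← b.sum_repr (F u)]
  rw [Finset.smul_sum]
  refine Finset.sum_congr rfl fun l _ => ?_
  rw [smul_smul]
  congr 1
  exact Subtype.ext (h3 l)

end regular

/-- the main theorem -/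
theorem exists_micro (M : Lattice (formal d)) (hM : M.Regular) (w : Fin d → ℕ) (κ : ℕ)
    (hκ : 0 < κ) (hq : M.QuasiHomogeneous w κ) :
    ∃ N : Lattice (micro d), N.Regular ∧ IsExtension micro_le_formal N M := by
  classical
  have hE : M.Kills (M.euler w κ) := hM _ (M.euler_mem_ops w κ) hq
  obtain ⟨r, b, Θ, K, hEb, hK⟩ := M.exists_basis w κ hκ hE
  have hYT : ∀ l j, IsMicro (b.repr (M.T (b j)) l : Ser d) := fun l j =>
    M.entries_micro w κ hκ b Θ K hEb hK M.T (qT (formal d)) M.T_smul 1
      (fun f => by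
        rw [one_smul, qT, qT, (formal d).pd_mul, (formal d).pd_var_self]; ring)
      (fun f hf => by
        have : ((qT (formal d) f : (formal d).alg) : Ser d)
            = X none * (X none * pderiv ℂ none (f : Ser d)) := by
          rw [qT, Subalgebra.coe_mul, Subalgebra.coe_pow, SymRing.coe_var, SymRing.coe_pd, pow_two,
            mul_assoc]
        rw [this]
        exact ((hf.pderiv none).X_mul).X_mul)
      (κ : ℤ) (fun u => by rw [M.euler_T, one_smul]) l j
  have hYP : ∀ i l j, IsMicro (b.repr (M.P i (b j)) l : Ser d) := fun i l j =>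
    M.entries_micro w κ hκ b Θ K hEb hK (M.P i) (qP (formal d) i) (M.P_smul i) 0
      (fun f => by
        rw [zero_zsmul, qP, qP, (formal d).pd_mul, (formal d).pd_var_ne (by simp)]; ring)
      (fun f hf => by
        have : ((qP (formal d) i f : (formal d).alg) : Ser d)
            = X none * pderiv ℂ (some i) (f : Ser d) := rfl
        rw [this]
        exact (((hf.pderiv (some i)).X_mul)).mono (by omega))
      ((κ : ℤ) - w i) (fun u => by rw [M.euler_P, zero_zsmul, sub_zero]) l j
  set N := descend M b (fun l j => ⟨_, hYT l j⟩) (fun l j => Subtype.ext rfl)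
    (fun i l j => ⟨_, hYP i l j⟩) (fun i l j => Subtype.ext rfl) with hN
  have hext : IsExtension micro_le_formal N M := by
    refine ⟨phi M b, fun f u => phi_smul M b f u, fun u => ?_, fun i u => ?_, r,
      Pi.basisFun (micro d).alg (Fin r), b, fun j => ?_⟩
    · exact phi_opr M b _ (qT_add _) (qT (formal d)) (fun f => Subtype.ext rfl) M.T M.T_smul _
        (fun l j => Subtype.ext rfl) u
    · exact phi_opr M b _ (qP_add _ i) (qP (formal d) i) (fun f => Subtype.ext rfl) (M.P i)
        (M.P_smul i) _ (fun l j => Subtype.ext rfl) u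
    · change ∑ l, inc d ((Pi.basisFun (micro d).alg (Fin r) j : Fin r → (micro d).alg) l) • b l = b j
      rw [Pi.basisFun_apply]
      rw [Finset.sum_eq_single j]
      · rw [Pi.single_eq_same, map_one, one_smul]
      · intro l _ hl
        rw [Pi.single_eq_of_ne hl, map_zero, zero_smul]
      · intro h; exact absurd (Finset.mem_univ j) h
  exact ⟨N, regular_of_extension hext hM fun f g hf hfg => IsMicro.div hf hfg, hext⟩

end Lattice

end Pool.Fml
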