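import Pool.Agent.Fml.Pub

set_option autoImplicit false

namespace Pool.Fmd

open MvPowerSeries
open Pool.Fml (Ser SymRing formal micro)

variable {d : ℕ}

/-- the same lattice, over the subalgebra -/
noncomputable def toInt {A : SymRing d} (M : Lattice A) : Pool.Fml.Lattice A where
  L := M.L
  grp := M.grp
  mod := M.mod
  free := M.free
  fin := M.fin
  T := M.T
  P := M.P
  T_smul := M.T_over
  P_smul := M.P_over
  P_T := M.P_T
  P_P := M.P_P

/-- the same lattice, over `R A` -/
noncomputable def ofInt {A : SymRing d} (M : Pool.Fml.Lattice A) : Lattice A where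
  L := M.L
  grp := M.grp
  mod := M.mod
  free := M.free
  fin := M.fin
  T := M.T
  P := M.P
  T_over := M.T_smul
  P_over := M.P_smul
  P_T := M.P_T
  P_P := M.P_P

theorem main (M : Lattice (formal d)) (hM : M.Regular) (w : Fin d → ℕ) (κ : ℕ)
    (hκ : 0 < κ) (hq : M.QuasiHomogeneous w κ) :
    ∃ N : Lattice (micro d), N.Regular ∧ IsExtension N M := by
  have h1 : (toInt M).Regular := hM
  have h2 : (toInt M).QuasiHomogeneous w κ := hq
  obtain ⟨N, hN, hext⟩ := (toInt M).exists_micro h1 w κ hκ h2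
  refine ⟨ofInt N, hN, ?_⟩
  obtain ⟨φ, hφ, hφT, hφP, r, b, c, hbc⟩ := hext
  exact ⟨φ, hφ, hφT, hφP, r, b, c, hbc⟩

end Pool.Fmd
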