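import Pool.Agent.Fml.Seq

set_option autoImplicit false
set_option linter.unusedSectionVars false
set_option linter.unusedVariables false

namespace Pool.Fml

open Finset.HasAntidiagonal (antidiagonal mem_antidiagonal)
open MvPowerSeries

variable {ι : Type} [Fintype ι] [DecidableEq ι] {n : Type} [Fintype n] [DecidableEq n]

/-- coefficient matrix -/
noncomputable def cm (m : ι →₀ ℕ) : Matrix n n (MvPowerSeries ι ℂ) →+ Matrix n n ℂ where
  toFun M := M.map (coeff m)
  map_zero' := by ext; simp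
  map_add' A B := by ext; simp

lemma cm_apply (m : ι →₀ ℕ) (M : Matrix n n (MvPowerSeries ι ℂ)) (i j : n) :
    cm m M i j = coeff m (M i j) := rfl

lemma cm_ext {M N : Matrix n n (MvPowerSeries ι ℂ)} (h : ∀ m, cm m M = cm m N) : M = N := by
  ext i j m
  exact congr_fun (congr_fun (h m) i) j

lemma cm_mul (m : ι →₀ ℕ) (M N : Matrix n n (MvPowerSeries ι ℂ)) :
    cm m (M * N) = ∑ p ∈ antidiagonal m, cm p.1 M * cm p.2 N := by
  ext i j
  rw [cm_apply, Matrix.mul_apply, map_sum, Matrix.sum_apply]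
  simp only [MvPowerSeries.coeff_mul, Matrix.mul_apply, cm_apply]
  rw [Finset.sum_comm]

lemma cm_mul' (m : ι →₀ ℕ) (M N : Matrix n n (MvPowerSeries ι ℂ)) :
    cm m (M * N) = ∑ p ∈ antidiagonal m, cm p.2 M * cm p.1 N := by
  rw [cm_mul]
  exact Finset.sum_equiv (Equiv.prodComm _ _)
    (fun p => by simp only [mem_antidiagonal, Equiv.prodComm_apply, Prod.fst_swap, Prod.snd_swap,
      add_comm]) (fun p _ => rfl)

lemma cm_one (m : ι →₀ ℕ) : cm m (1 : Matrix n n (MvPowerSeries ι ℂ)) = if m = 0 then 1 else 0 := by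
  ext i j
  rw [cm_apply]
  by_cases hij : i = j
  · subst hij
    rw [Matrix.one_apply_eq, MvPowerSeries.coeff_one]
    split_ifs <;> simp
  · rw [Matrix.one_apply_ne hij]
    split_ifs <;> simp [Matrix.one_apply_ne hij]

/-- norm of a matrix -/
noncomputable def nm (A : Matrix n n ℂ) : ℝ := ∑ i, ∑ j, ‖A i j‖

lemma nm_nonneg (A : Matrix n n ℂ) : 0 ≤ nm A :=
  Finset.sum_nonneg fun _ _ => Finset.sum_nonneg fun _ _ => norm_nonneg _

lemma nm_zero : nm (0 : Matrix n n ℂ) = 0 := by simp [nm]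

lemma norm_le_nm (A : Matrix n n ℂ) (i j : n) : ‖A i j‖ ≤ nm A :=
  le_trans (Finset.single_le_sum (f := fun j => ‖A i j‖) (fun _ _ => norm_nonneg _)
    (Finset.mem_univ j)) (Finset.single_le_sum (f := fun i => ∑ j, ‖A i j‖)
    (fun _ _ => Finset.sum_nonneg fun _ _ => norm_nonneg _) (Finset.mem_univ i))

lemma nm_eq_zero {A : Matrix n n ℂ} (h : nm A ≤ 0) : A = 0 := by
  ext i j
  have := norm_le_nm A i j
  simpa using le_antisymm (this.trans h) (norm_nonneg _)

lemma nm_add_le (A B : Matrix n n ℂ) : nm (A + B) ≤ nm A + nm B := by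
  simp only [nm, ← Finset.sum_add_distrib]
  exact Finset.sum_le_sum fun i _ => Finset.sum_le_sum fun j _ => norm_add_le _ _

lemma nm_neg (A : Matrix n n ℂ) : nm (-A) = nm A := by simp [nm]

lemma nm_sub_le (A B : Matrix n n ℂ) : nm (A - B) ≤ nm A + nm B := by
  rw [sub_eq_add_neg]
  exact (nm_add_le _ _).trans (by rw [nm_neg])

lemma nm_smul (c : ℂ) (A : Matrix n n ℂ) : nm (c • A) = ‖c‖ * nm A := by
  simp only [nm, Matrix.smul_apply, smul_eq_mul, norm_mul, Finset.mul_sum]

lemma nm_sum_le {κ : Type} (s : Finset κ) (f : κ → Matrix n n ℂ) :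
    nm (∑ k ∈ s, f k) ≤ ∑ k ∈ s, nm (f k) := by
  classical
  induction s using Finset.induction_on with
  | empty => simp [nm_zero]
  | insert k s hk ih =>
    rw [Finset.sum_insert hk, Finset.sum_insert hk]
    exact (nm_add_le _ _).trans (by gcongr)

lemma nm_mul_le (A B : Matrix n n ℂ) : nm (A * B) ≤ nm A * nm B := by
  calc nm (A * B) ≤ ∑ i, ∑ j, ∑ k, ‖A i k‖ * ‖B k j‖ := by
        refine Finset.sum_le_sum fun i _ => Finset.sum_le_sum fun j _ => ?_
        rw [Matrix.mul_apply]
        exact (norm_sum_le _ _).trans (le_of_eq (by simp only [norm_mul]))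
    _ = ∑ i, ∑ k, ‖A i k‖ * ∑ j, ‖B k j‖ := by
        refine Finset.sum_congr rfl fun i _ => ?_
        rw [Finset.sum_comm]
        simp only [Finset.mul_sum]
    _ ≤ ∑ i, ∑ k, ‖A i k‖ * nm B := by
        refine Finset.sum_le_sum fun i _ => Finset.sum_le_sum fun k _ =>
          mul_le_mul_of_nonneg_left ?_ (norm_nonneg _)
        exact Finset.single_le_sum (f := fun k => ∑ j, ‖B k j‖)
          (fun _ _ => Finset.sum_nonneg fun _ _ => norm_nonneg _) (Finset.mem_univ k)
    _ = nm A * nm B := by simp only [nm, Finset.sum_mul]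

variable (w : ι → ℕ)

/-- existence of a formal solution of weight `> K` -/
lemma exists_sol (K : ℕ) (U V F : Matrix n n (MvPowerSeries ι ℂ))
    (h : nm (cm 0 U) + nm (cm 0 V) ≤ K) :
    ∃ X : Matrix n n (MvPowerSeries ι ℂ), (∀ m, Finsupp.weight w m ≤ K → cm m X = 0) ∧
      ∀ m, K < Finsupp.weight w m →
        ((Finsupp.weight w m : ℕ) : ℂ) • cm m X + cm m (U * X - X * V) = cm m F := by
  classical
  set lin : (ι →₀ ℕ) → Matrix n n ℂ →ₗ[ℂ] Matrix n n ℂ := fun m =>
    ((Finsupp.weight w m : ℕ) : ℂ) • LinearMap.id + LinearMap.mulLeft ℂ (cm 0 U)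
      - LinearMap.mulRight ℂ (cm 0 V) with hlin
  have lin_apply : ∀ m Y, lin m Y = ((Finsupp.weight w m : ℕ) : ℂ) • Y + cm 0 U * Y - Y * cm 0 V :=
    fun m Y => rfl
  have hinj : ∀ m, K < Finsupp.weight w m → Function.Injective (lin m) := by
    intro m hm
    rw [injective_iff_map_eq_zero]
    intro Y hY
    rw [lin_apply] at hY
    have h1 : ((Finsupp.weight w m : ℕ) : ℂ) • Y = Y * cm 0 V - cm 0 U * Y := by
      rw [← sub_eq_zero, ← hY]; abel
    have h2 := congrArg nm h1
    rw [nm_smul, Complex.norm_natCast] at h2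
    have h3 : nm (Y * cm 0 V - cm 0 U * Y) ≤ (nm (cm 0 U) + nm (cm 0 V)) * nm Y := by
      refine (nm_sub_le _ _).trans ?_
      have := nm_mul_le Y (cm 0 V)
      have := nm_mul_le (cm 0 U) Y
      nlinarith
    have h4 : ((K : ℝ) + 1) ≤ (Finsupp.weight w m : ℕ) := by exact_mod_cast hm
    have h5 := nm_nonneg Y
    refine nm_eq_zero ?_
    nlinarith
  have hsurj : ∀ m, K < Finsupp.weight w m → ∀ Z, ∃ Y, lin m Y = Z := fun m hm =>
    LinearMap.injective_iff_surjective.1 (hinj m hm)
  choose! inv hinv using hsurj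
  set step : ∀ m : ι →₀ ℕ, (∀ m' : ι →₀ ℕ, m' < m → Matrix n n ℂ) → Matrix n n ℂ := fun m rec =>
    if K < Finsupp.weight w m then
      inv m (cm m F - ∑ p ∈ antidiagonal m, if hp : p.2 < m then
        cm p.1 U * rec p.2 hp - rec p.2 hp * cm p.1 V else 0) else 0 with hstep
  have wf : WellFounded (fun a b : ι →₀ ℕ => a < b) := wellFounded_lt
  set x : (ι →₀ ℕ) → Matrix n n ℂ := wf.fix step with hx
  have hxe : ∀ m, x m = step m (fun m' _ => x m') := fun m => wf.fix_eq step m
  set X : Matrix n n (MvPowerSeries ι ℂ) := fun i j => fun m => x m i j with hX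
  have hcm : ∀ m, cm m X = x m := fun m => rfl
  refine ⟨X, fun m hm => ?_, fun m hm => ?_⟩
  · rw [hcm, hxe, hstep]
    simp only [if_neg (not_lt.2 hm)]
  · have h1 : lin m (x m) = cm m F - ∑ p ∈ antidiagonal m, if hp : p.2 < m then
        cm p.1 U * x p.2 - x p.2 * cm p.1 V else 0 := by
      conv_lhs => rw [hxe, hstep]
      simp only [if_pos hm]
      exact hinv m hm _
    rw [map_sub, cm_mul, cm_mul', ← Finset.sum_sub_distrib]
    simp only [hcm]
    have h2 : ∑ p ∈ antidiagonal m, (cm p.1 U * x p.2 - x p.2 * cm p.1 V)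
        = (cm 0 U * x m - x m * cm 0 V) + ∑ p ∈ antidiagonal m, if hp : p.2 < m then
        cm p.1 U * x p.2 - x p.2 * cm p.1 V else 0 := by
      have hmem : ((0 : ι →₀ ℕ), m) ∈ antidiagonal m := by simp [mem_antidiagonal]
      rw [← Finset.add_sum_erase _ _ hmem, ← Finset.add_sum_erase (antidiagonal m)
        (fun p => if hp : p.2 < m then cm p.1 U * x p.2 - x p.2 * cm p.1 V else 0) hmem]
      simp only [lt_irrefl, dite_false, zero_add]
      congr 1
      refine Finset.sum_congr rfl fun p hp => ?_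
      rw [Finset.mem_erase, mem_antidiagonal] at hp
      have hlt : p.2 < m := by
        rw [← hp.2]
        have h0 : p.1 ≠ 0 := by
          intro h0
          refine hp.1 (Prod.ext h0 ?_)
          rw [← hp.2, h0, zero_add]
        exact lt_add_of_pos_left _ (pos_iff_ne_zero.2 h0)
      rw [dif_pos hlt]
    rw [h2, ← add_assoc]
    have h3 : ((Finsupp.weight w m : ℕ) : ℂ) • x m + (cm 0 U * x m - x m * cm 0 V) = lin m (x m) := by
      rw [lin_apply]; abel
    rw [h3, h1]
    abel

/-- uniqueness of the formal solution -/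
lemma uniq_sol (K : ℕ) (U V X : Matrix n n (MvPowerSeries ι ℂ))
    (h : nm (cm 0 U) + nm (cm 0 V) ≤ K) (h0 : ∀ m, Finsupp.weight w m ≤ K → cm m X = 0)
    (h1 : ∀ m, K < Finsupp.weight w m →
        ((Finsupp.weight w m : ℕ) : ℂ) • cm m X + cm m (U * X - X * V) = 0) : X = 0 := by
  refine cm_ext fun m => ?_
  rw [map_zero]
  have wf : WellFounded (fun a b : ι →₀ ℕ => a < b) := wellFounded_lt
  induction m using wf.induction with
  | _ m ih =>
  by_cases hm : Finsupp.weight w m ≤ K
  · exact h0 m hm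
  · rw [not_le] at hm
    have h2 := h1 m hm
    rw [map_sub, cm_mul, cm_mul', ← Finset.sum_sub_distrib] at h2
    have hmem : ((0 : ι →₀ ℕ), m) ∈ antidiagonal m := by simp [mem_antidiagonal]
    rw [← Finset.add_sum_erase _ _ hmem] at h2
    rw [Finset.sum_eq_zero (s := (antidiagonal m).erase (0, m)), add_zero] at h2
    · have h3 : ((Finsupp.weight w m : ℕ) : ℂ) • cm m X = cm m X * cm 0 V - cm 0 U * cm m X := by
        rw [← sub_eq_zero, ← h2]; abel
      have h4 := congrArg nm h3
      rw [nm_smul, Complex.norm_natCast] at h4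
      have h5 : nm (cm m X * cm 0 V - cm 0 U * cm m X) ≤ (nm (cm 0 U) + nm (cm 0 V)) * nm (cm m X) := by
        refine (nm_sub_le _ _).trans ?_
        have := nm_mul_le (cm m X) (cm 0 V)
        have := nm_mul_le (cm 0 U) (cm m X)
        nlinarith
      have h6 : ((K : ℝ) + 1) ≤ (Finsupp.weight w m : ℕ) := by exact_mod_cast hm
      have h7 := nm_nonneg (cm m X)
      refine nm_eq_zero ?_
      nlinarith
    · intro p hp
      rw [Finset.mem_erase, mem_antidiagonal] at hp
      have hlt : p.2 < m := by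
        rw [← hp.2]
        have h0 : p.1 ≠ 0 := by
          intro h0
          refine hp.1 (Prod.ext h0 ?_)
          rw [← hp.2, h0, zero_add]
        exact lt_add_of_pos_left _ (pos_iff_ne_zero.2 h0)
      rw [ih _ hlt]
      simp

/-- the estimate: a solution with summable low part is summable -/
lemma est {ω : (ι →₀ ℕ) → ℝ} (hω : Sub ω) (K : ℕ) (c : ℂ)
    (U V F Y : Matrix n n (MvPowerSeries ι ℂ))
    (hU : Summable fun m => nm (cm m U) * ω m) (hV : Summable fun m => nm (cm m V) * ω m)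
    (hF : Summable fun m => nm (cm m F) * ω m)
    (hlow : Summable fun m => (if Finsupp.weight w m ≤ K then nm (cm m Y) else 0) * ω m)
    (hK : ∑' m, (nm (cm m U) + nm (cm m V)) * ω m < K - ‖c‖)
    (h : ∀ m, K < Finsupp.weight w m →
        (((Finsupp.weight w m : ℕ) : ℂ) - c) • cm m Y + cm m (U * Y - Y * V) = cm m F) :
    Summable fun m => nm (cm m Y) * ω m := by
  set l : (ι →₀ ℕ) → ℝ := fun m => if Finsupp.weight w m ≤ K then nm (cm m Y) else 0 with hl
  set a : (ι →₀ ℕ) → ℝ := fun m => if Finsupp.weight w m ≤ K then 0 else nm (cm m Y) with ha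
  set u : (ι →₀ ℕ) → ℝ := fun m => nm (cm m U) + nm (cm m V) with hu
  have hla : ∀ m, nm (cm m Y) = a m + l m := fun m => by
    simp only [ha, hl]; split_ifs <;> simp
  have l0 : ∀ m, 0 ≤ l m := fun m => by
    simp only [hl]; split_ifs; exacts [nm_nonneg _, le_rfl]
  have a0 : ∀ m, 0 ≤ a m := fun m => by
    simp only [ha]; split_ifs; exacts [le_rfl, nm_nonneg _]
  have u0 : ∀ m, 0 ≤ u m := fun m => add_nonneg (nm_nonneg _) (nm_nonneg _)
  have hus : Summable fun m => u m * ω m := by
    simpa only [hu, add_mul] using hU.add hV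
  set f : (ι →₀ ℕ) → ℝ := fun m => (∑ p ∈ antidiagonal m, u p.1 * l p.2) + nm (cm m F) with hf
  have f0 : ∀ m, 0 ≤ f m := fun m => add_nonneg
    (Finset.sum_nonneg fun p _ => mul_nonneg (u0 _) (l0 _)) (nm_nonneg _)
  have hfs : Summable fun m => f m * ω m := by
    have h1 := conv_summable hω u0 l0 (c := fun m => ∑ p ∈ antidiagonal m, u p.1 * l p.2)
      (fun m => Finset.sum_nonneg fun p _ => mul_nonneg (u0 _) (l0 _)) hus hlow (fun m => le_rfl)
    simpa only [hf, add_mul] using h1.add hF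
  have key : ∀ m, (K - ‖c‖) * a m ≤ (∑ p ∈ antidiagonal m, u p.1 * a p.2) + f m := by
    intro m
    have hs0 : 0 ≤ ∑ p ∈ antidiagonal m, u p.1 * a p.2 :=
      Finset.sum_nonneg fun p _ => mul_nonneg (u0 _) (a0 _)
    by_cases hm : Finsupp.weight w m ≤ K
    · have : a m = 0 := by simp only [ha, if_pos hm]
      rw [this, mul_zero]
      exact add_nonneg hs0 (f0 m)
    · rw [not_le] at hm
      have e1 := h m hm
      have e2 : (((Finsupp.weight w m : ℕ) : ℂ) - c) • cm m Y = cm m F - cm m (U * Y - Y * V) := by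
        rw [← e1]; abel
      have e3 := congrArg nm e2
      rw [nm_smul] at e3
      have e4 : (K : ℝ) - ‖c‖ ≤ ‖((Finsupp.weight w m : ℕ) : ℂ) - c‖ := by
        have := norm_sub_norm_le ((Finsupp.weight w m : ℕ) : ℂ) c
        rw [Complex.norm_natCast] at this
        have h4 : (K : ℝ) ≤ (Finsupp.weight w m : ℕ) := by exact_mod_cast hm.le
        linarith
      have e5 : nm (cm m (U * Y - Y * V)) ≤ ∑ p ∈ antidiagonal m, u p.1 * nm (cm p.2 Y) := by
        rw [map_sub, cm_mul, cm_mul', ← Finset.sum_sub_distrib]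
        refine (nm_sum_le _ _).trans (Finset.sum_le_sum fun p _ => ?_)
        refine (nm_sub_le _ _).trans ?_
        have := nm_mul_le (cm p.1 U) (cm p.2 Y)
        have := nm_mul_le (cm p.2 Y) (cm p.1 V)
        simp only [hu]
        nlinarith
      have e6 : nm (cm m F - cm m (U * Y - Y * V)) ≤ nm (cm m F)
          + ∑ p ∈ antidiagonal m, u p.1 * nm (cm p.2 Y) :=
        (nm_sub_le _ _).trans (by gcongr)
      have e7 : a m = nm (cm m Y) := by simp only [ha, if_neg (not_le.2 hm)]
      have e8 : ∑ p ∈ antidiagonal m, u p.1 * nm (cm p.2 Y)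
          = (∑ p ∈ antidiagonal m, u p.1 * a p.2) + ∑ p ∈ antidiagonal m, u p.1 * l p.2 := by
        rw [← Finset.sum_add_distrib]
        refine Finset.sum_congr rfl fun p _ => ?_
        rw [hla]; ring
      calc (K - ‖c‖) * a m ≤ ‖((Finsupp.weight w m : ℕ) : ℂ) - c‖ * nm (cm m Y) := by
            rw [e7]; exact mul_le_mul_of_nonneg_right e4 (nm_nonneg _)
        _ ≤ nm (cm m F) + ∑ p ∈ antidiagonal m, u p.1 * nm (cm p.2 Y) := by
            rw [e3]; exact e6
        _ = _ := by rw [e8, hf]; ring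
  have := basic_est hω (K - ‖c‖) a0 u0 f0 hus hfs hK key
  have h2 := this.add hlow
  refine h2.congr fun m => ?_
  have h3 := hla m
  change a m * ω m + l m * ω m = nm (cm m Y) * ω m
  rw [h3, add_mul]

end Pool.Fml
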