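import Pool.Agent.Fml.Defs
import Pool.Agent.Fml.Mat

set_option autoImplicit false
set_option linter.unusedSectionVars false
set_option linter.unusedVariables false

namespace Pool.Fml

open Finset.HasAntidiagonal (antidiagonal mem_antidiagonal)
open MvPowerSeries

variable {d : ℕ} {n : Type} [Fintype n] [DecidableEq n]

lemma coeff_X_mul_pderiv (i : Option (Fin d)) (f : Ser d) (m : Option (Fin d) →₀ ℕ) :
    coeff m (X i * pderiv ℂ i f) = (m i : ℂ) * coeff m f := by
  classical
  rw [X, coeff_monomial_mul]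
  split_ifs with h
  · rw [coeff_pderiv, tsub_add_cancel_of_le h, one_mul, mul_comm]
    have h1 : 1 ≤ m i := by simpa using h i
    congr 1
    rw [Finsupp.tsub_apply, Finsupp.single_eq_same, Nat.cast_sub h1]
    push_cast; ring
  · have h1 : m i = 0 := by
      by_contra h1
      refine h fun j => ?_
      rcases eq_or_ne j i with hj | hj
      · subst hj; rw [Finsupp.single_eq_same]; omega
      · rw [Finsupp.single_eq_of_ne hj]; exact Nat.zero_le _
    rw [h1]; simp

/-- the Euler derivation -/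
noncomputable def eul (w : Option (Fin d) → ℕ) : Derivation ℂ (Ser d) (Ser d) :=
  ∑ i, (w i) • ((X i : Ser d) • pderiv ℂ i)

lemma eul_apply (w : Option (Fin d) → ℕ) (f : Ser d) :
    eul w f = ∑ i, (w i) • (X i * pderiv ℂ i f) := by
  have h := map_sum (Derivation.coeFnAddMonoidHom (R := ℂ) (A := Ser d) (M := Ser d))
    (fun i => (w i) • ((X i : Ser d) • pderiv ℂ i)) Finset.univ
  have h2 := congrFun h f
  rw [Finset.sum_apply] at h2
  exact h2

lemma coeff_eul (w : Option (Fin d) → ℕ) (f : Ser d) (m : Option (Fin d) →₀ ℕ) :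
    coeff m (eul w f) = ((Finsupp.weight w m : ℕ) : ℂ) * coeff m f := by
  rw [eul_apply, map_sum, Finsupp.weight_eq_sum]
  simp only [map_nsmul, coeff_X_mul_pderiv]
  simp only [nsmul_eq_mul, smul_eq_mul]
  rw [Nat.cast_sum, Finset.sum_mul]
  refine Finset.sum_congr rfl fun i _ => ?_
  push_cast; ring

/-- entrywise Euler derivation -/
noncomputable def eulM (w : Option (Fin d) → ℕ) (M : Matrix n n (Ser d)) : Matrix n n (Ser d) :=
  M.map (eul w)

lemma eulM_apply (w : Option (Fin d) → ℕ) (M : Matrix n n (Ser d)) (i j : n) :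
    eulM w M i j = eul w (M i j) := rfl

lemma cm_eulM (w : Option (Fin d) → ℕ) (M : Matrix n n (Ser d)) (m : Option (Fin d) →₀ ℕ) :
    cm m (eulM w M) = ((Finsupp.weight w m : ℕ) : ℂ) • cm m M := by
  ext i j
  rw [cm_apply, eulM_apply, coeff_eul]; rfl

lemma eulM_mul (w : Option (Fin d) → ℕ) (M N : Matrix n n (Ser d)) :
    eulM w (M * N) = M * eulM w N + eulM w M * N := by
  ext1 i j
  simp only [Matrix.add_apply, Matrix.mul_apply, eulM_apply, map_sum, Derivation.leibniz,
    smul_eq_mul, Finset.sum_add_distrib]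
  congr 1
  exact Finset.sum_congr rfl fun k _ => mul_comm _ _

lemma eulM_one (w : Option (Fin d) → ℕ) : eulM w (1 : Matrix n n (Ser d)) = 0 := by
  ext1 i j
  rw [eulM_apply]
  by_cases h : i = j
  · subst h; rw [Matrix.one_apply_eq, Derivation.map_one_eq_zero]; rfl
  · rw [Matrix.one_apply_ne h, map_zero]; rfl

lemma eulM_add (w : Option (Fin d) → ℕ) (M N : Matrix n n (Ser d)) :
    eulM w (M + N) = eulM w M + eulM w N := by
  ext1 i j; simp only [eulM_apply, Matrix.add_apply, map_add]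

lemma eulM_sub (w : Option (Fin d) → ℕ) (M N : Matrix n n (Ser d)) :
    eulM w (M - N) = eulM w M - eulM w N := by
  ext1 i j; simp only [eulM_apply, Matrix.sub_apply, map_sub]

/-- the growth of a matrix with formal entries -/
lemma tame_nm {M : Matrix n n (Ser d)} (h : ∀ i j, IsFormal (M i j)) :
    Tame fun m => nm (cm m M) :=
  Tame.sum _ fun i _ => Tame.sum _ fun j _ => h i j

lemma formal_of_nm {M : Matrix n n (Ser d)} (h : Tame fun m => nm (cm m M)) (i j : n) :
    IsFormal (M i j) := Tame.mono h fun m => norm_le_nm (cm m M) i j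

/-- truncation at weight `K` -/
noncomputable def tr (w : Option (Fin d) → ℕ) (K : ℕ) (M : Matrix n n (Ser d)) :
    Matrix n n (Ser d) := fun i j => fun m =>
  if Finsupp.weight w m ≤ K then coeff m (M i j) else 0

lemma cm_tr (w : Option (Fin d) → ℕ) (K : ℕ) (M : Matrix n n (Ser d))
    (m : Option (Fin d) →₀ ℕ) :
    cm m (tr w K M) = if Finsupp.weight w m ≤ K then cm m M else 0 := by
  ext i j
  change (if Finsupp.weight w m ≤ K then coeff m (M i j) else 0) = _
  split_ifs <;> rfl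

/-- a product with a factor of weight `> K` has weight `> K` -/
lemma cm_mul_low {w : Option (Fin d) → ℕ} {K : ℕ} {X : Matrix n n (Ser d)}
    (hX : ∀ m, Finsupp.weight w m ≤ K → cm m X = 0) (Y : Matrix n n (Ser d))
    (m : Option (Fin d) →₀ ℕ) (hm : Finsupp.weight w m ≤ K) :
    cm m (X * Y) = 0 ∧ cm m (Y * X) = 0 := by
  rw [cm_mul, cm_mul]
  refine ⟨Finset.sum_eq_zero fun p hp => ?_, Finset.sum_eq_zero fun p hp => ?_⟩
  · rw [mem_antidiagonal] at hp
    rw [hX p.1, zero_mul]
    rw [← hp, map_add] at hm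
    omega
  · rw [mem_antidiagonal] at hp
    rw [hX p.2, mul_zero]
    rw [← hp, map_add] at hm
    omega

/-- the gauge transformation which truncates the matrix of the Euler operator -/
lemma exists_gauge (w : Option (Fin d) → ℕ) (Θ : Matrix n n (Ser d))
    (hΘ : ∀ i j, IsFormal (Θ i j)) :
    ∃ (K : ℕ) (G H : Matrix n n (Ser d)), (∀ i j, IsFormal (G i j)) ∧
      (∀ i j, IsFormal (H i j)) ∧ G * H = 1 ∧ Θ * G + eulM w G = G * tr w K Θ := by
  have hT := tame_nm hΘ
  obtain ⟨R, hR, C, hC⟩ := hT.exists_C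
  obtain ⟨τ, h1, h2, h3⟩ := core_omega (fun m => nm_nonneg _) hR hC
  set ρ : ℝ := 1 / (2 * R) with hρ
  have hρ0 : 0 < ρ := by positivity
  have hω := om_sub (ν := Fin d) hρ0 h1 h2
  set B : ℝ := max (C 0) 1 * ∑' m : Option (Fin d) →₀ ℕ, (1 / 2 : ℝ) ^ m.degree with hB
  have hgeo := summable_deg (ι := Option (Fin d)) (1 / 2) (by norm_num) (by norm_num)
  have hsum : Summable fun m => nm (cm m Θ) * om ρ τ m :=
    Summable.of_nonneg_of_le (fun m => mul_nonneg (nm_nonneg _) (hω.1 m).le) h3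
      (hgeo.mul_left _)
  have hle : ∑' m, nm (cm m Θ) * om ρ τ m ≤ B := by
    rw [hB, ← tsum_mul_left]
    exact hsum.tsum_le_tsum h3 (hgeo.mul_left _)
  obtain ⟨K, hK⟩ := exists_nat_gt (2 * B)
  have hcoeff : ∀ m, nm (cm m (tr w K Θ)) ≤ nm (cm m Θ) := fun m => by
    rw [cm_tr]; split_ifs; exacts [le_rfl, by rw [nm_zero]; exact nm_nonneg _]
  have hsum' : Summable fun m => nm (cm m (tr w K Θ)) * om ρ τ m :=
    Summable.of_nonneg_of_le (fun m => mul_nonneg (nm_nonneg _) (hω.1 m).le)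
      (fun m => mul_le_mul_of_nonneg_right (hcoeff m) (hω.1 m).le) hsum
  have hle' : ∑' m, nm (cm m (tr w K Θ)) * om ρ τ m ≤ B :=
    (hsum'.tsum_le_tsum (fun m => mul_le_mul_of_nonneg_right (hcoeff m) (hω.1 m).le) hsum).trans hle
  have h0 : nm (cm 0 Θ) ≤ B := by
    refine le_trans ?_ hle
    have h4 := hsum.le_tsum 0 fun m _ => mul_nonneg (nm_nonneg _) (hω.1 m).le
    refine le_trans ?_ h4
    have h5 : (1 : ℝ) ≤ om ρ τ (0 : Option (Fin d) →₀ ℕ) := by
      have h6 := hω.2 0 0
      rw [add_zero] at h6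
      have h7 := hω.1 (0 : Option (Fin d) →₀ ℕ)
      nlinarith
    exact le_mul_of_one_le_right (nm_nonneg _) h5
  have h0' : nm (cm 0 (tr w K Θ)) ≤ B := (hcoeff 0).trans h0
  -- the two equations
  set Φ : Matrix n n (Ser d) := tr w K Θ - Θ with hΦ
  have hΦcm : ∀ m, Finsupp.weight w m ≤ K → cm m Φ = 0 := fun m hm => by
    rw [hΦ, map_sub, cm_tr, if_pos hm, sub_self]
  have hΦs : Summable fun m => nm (cm m Φ) * om ρ τ m := by
    refine Summable.of_nonneg_of_le (fun m => mul_nonneg (nm_nonneg _) (hω.1 m).le)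
      (fun m => ?_) (hsum'.add hsum)
    rw [← add_mul]
    refine mul_le_mul_of_nonneg_right ?_ (hω.1 m).le
    rw [hΦ, map_sub]; exact nm_sub_le _ _
  have hΦs' : Summable fun m => nm (cm m (-Φ)) * om ρ τ m := by
    simpa only [map_neg, nm_neg] using hΦs
  obtain ⟨X, hX0, hX1⟩ := exists_sol w K Θ (tr w K Θ) Φ (by linarith)
  obtain ⟨Y, hY0, hY1⟩ := exists_sol w K (tr w K Θ) Θ (-Φ) (by linarith)
  have hXs : Summable fun m => nm (cm m X) * om ρ τ m := by
    refine est w hω K 0 Θ (tr w K Θ) Φ X hsum hsum' hΦs ?_ ?_ ?_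
    · refine (summable_zero).congr fun m => ?_
      split_ifs with h
      · rw [hX0 m h, nm_zero, zero_mul]
      · rw [zero_mul]
    · simp only [add_mul, norm_zero, sub_zero]
      rw [hsum.tsum_add hsum']; linarith
    · intro m hm; rw [sub_zero]; exact hX1 m hm
  have hYs : Summable fun m => nm (cm m Y) * om ρ τ m := by
    refine est w hω K 0 (tr w K Θ) Θ (-Φ) Y hsum' hsum hΦs' ?_ ?_ ?_
    · refine (summable_zero).congr fun m => ?_
      split_ifs with h
      · rw [hY0 m h, nm_zero, zero_mul]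
      · rw [zero_mul]
    · simp only [add_mul, norm_zero, sub_zero]
      rw [hsum'.tsum_add hsum]; linarith
    · intro m hm; rw [sub_zero]; exact hY1 m hm
  have hXf : ∀ i j, IsFormal (X i j) :=
    formal_of_nm (tame_of_summable (fun m => nm_nonneg _) hρ0 h1 hXs)
  have hYf : ∀ i j, IsFormal (Y i j) :=
    formal_of_nm (tame_of_summable (fun m => nm_nonneg _) hρ0 h1 hYs)
  have hone : ∀ i j, IsFormal ((1 : Matrix n n (Ser d)) i j) := fun i j => by
    by_cases h : i = j
    · subst h; rw [Matrix.one_apply_eq]; exact (formal d).alg.one_mem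
    · rw [Matrix.one_apply_ne h]; exact (formal d).alg.zero_mem
  have eX : eulM w X + (Θ * X - X * tr w K Θ) = Φ := by
    refine cm_ext fun m => ?_
    by_cases hm : Finsupp.weight w m ≤ K
    · rw [map_add, cm_eulM, hX0 m hm, map_sub, (cm_mul_low hX0 _ m hm).1,
        (cm_mul_low hX0 _ m hm).2, hΦcm m hm]; simp
    · rw [not_le] at hm
      rw [map_add, cm_eulM]; exact hX1 m hm
  have eY : eulM w Y + (tr w K Θ * Y - Y * Θ) = -Φ := by
    refine cm_ext fun m => ?_
    by_cases hm : Finsupp.weight w m ≤ K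
    · rw [map_add, cm_eulM, hY0 m hm, map_sub, (cm_mul_low hY0 _ m hm).1,
        (cm_mul_low hY0 _ m hm).2, map_neg, hΦcm m hm]; simp
    · rw [not_le] at hm
      rw [map_add, cm_eulM]; exact hY1 m hm
  have eG : Θ * (1 + X) + eulM w (1 + X) = (1 + X) * tr w K Θ := by
    rw [eulM_add, eulM_one]
    have : eulM w X = Φ - (Θ * X - X * tr w K Θ) := by rw [← eX]; abel
    rw [this, hΦ]; noncomm_ring
  have eH : eulM w (1 + Y) = (1 + Y) * Θ - tr w K Θ * (1 + Y) := by
    rw [eulM_add, eulM_one]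
    have : eulM w Y = -Φ - (tr w K Θ * Y - Y * Θ) := by rw [← eY]; abel
    rw [this, hΦ]; noncomm_ring
  refine ⟨K, 1 + X, 1 + Y, fun i j => (formal d).alg.add_mem (hone i j) (hXf i j),
    fun i j => (formal d).alg.add_mem (hone i j) (hYf i j), ?_, eG⟩
  have hW0 : ∀ m, Finsupp.weight w m ≤ K → cm m ((1 + X) * (1 + Y) - 1) = 0 := fun m hm => by
    have : (1 + X) * (1 + Y) - 1 = X + Y + X * Y := by noncomm_ring
    rw [this, map_add, map_add, hX0 m hm, hY0 m hm, (cm_mul_low hX0 _ m hm).1]; simp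
  have hW1 : eulM w ((1 + X) * (1 + Y) - 1) + (Θ * ((1 + X) * (1 + Y) - 1)
      - ((1 + X) * (1 + Y) - 1) * Θ) = 0 := by
    have e1 : eulM w (1 + X) = (1 + X) * tr w K Θ - Θ * (1 + X) := by rw [← eG]; abel
    rw [eulM_sub, eulM_one, eulM_mul, eH, e1]; noncomm_ring
  have := uniq_sol w K Θ Θ ((1 + X) * (1 + Y) - 1) (by linarith) hW0 fun m _ => by
    rw [← cm_eulM, ← map_add, hW1, map_zero]
  exact sub_eq_zero.1 this

/-- formal solutions with truncated data converge -/
lemma conv_of_eq {w : Option (Fin d) → ℕ} (hw : 0 < w none) (K : ℕ) (c : ℂ)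
    (Θ Y F : Matrix n n (Ser d)) (hΘ : ∀ i j, IsFormal (Θ i j)) (hY : ∀ i j, IsFormal (Y i j))
    (hF : ∀ i j, IsFormal (F i j)) (hΘK : ∀ m, K < m none → cm m Θ = 0)
    (hFK : ∀ m, K < m none → cm m F = 0)
    (h : ∀ m, (((Finsupp.weight w m : ℕ) : ℂ) - c) • cm m Y + cm m (Θ * Y - Y * Θ) = cm m F)
    (i j : n) : IsMicro (Y i j) := by
  have hT := ((tame_nm hΘ).add (tame_nm hY)).add (tame_nm hF)
  obtain ⟨R, hR, hb⟩ := hT.bounded fun m =>
    add_nonneg (add_nonneg (nm_nonneg _) (nm_nonneg _)) (nm_nonneg _)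
  set ρ : ℝ := 1 / (2 * R) with hρ
  have hρ0 : 0 < ρ := by positivity
  have hω := om_sub_one (ν := Fin d) hρ0
  have hΘs : Summable fun m => nm (cm m Θ) * om ρ (fun _ => 1) m :=
    hb K _ (fun m => nm_nonneg _)
      (fun m => by linarith [nm_nonneg (cm m Y), nm_nonneg (cm m F)])
      (fun m hm => by rw [hΘK m hm, nm_zero]) ρ hρ0 le_rfl
  have hFs : Summable fun m => nm (cm m F) * om ρ (fun _ => 1) m :=
    hb K _ (fun m => nm_nonneg _)
      (fun m => by linarith [nm_nonneg (cm m Y), nm_nonneg (cm m Θ)])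
      (fun m hm => by rw [hFK m hm, nm_zero]) ρ hρ0 le_rfl
  obtain ⟨N, hN⟩ := exists_nat_gt (∑' m, (nm (cm m Θ) + nm (cm m Θ)) * om ρ (fun _ => 1) m + ‖c‖)
  have hwm : ∀ m : Option (Fin d) →₀ ℕ, m none ≤ Finsupp.weight w m := fun m => by
    rw [Finsupp.weight_eq_sum]
    refine le_trans ?_ (Finset.single_le_sum (f := fun i => m i • w i) (fun _ _ => Nat.zero_le _)
      (Finset.mem_univ none))
    exact Nat.le_mul_of_pos_right _ hw
  have hlow : Summable fun m => (if Finsupp.weight w m ≤ N then nm (cm m Y) else 0)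
      * om ρ (fun _ => 1) m :=
    hb N _ (fun m => by split_ifs; exacts [nm_nonneg _, le_rfl])
      (fun m => by
        have h1 := nm_nonneg (cm m Θ)
        have h2 := nm_nonneg (cm m Y)
        have h3 := nm_nonneg (cm m F)
        split_ifs <;> linarith)
      (fun m hm => by rw [if_neg]; have := hwm m; omega) ρ hρ0 le_rfl
  have hs := est w hω N c Θ Θ F Y hΘs hΘs hFs hlow (by linarith) fun m _ => h m
  have hs2 : Summable fun m => ‖coeff m (Y i j)‖ * om ρ (fun _ => 1) m :=
    Summable.of_nonneg_of_le (fun m => mul_nonneg (norm_nonneg _) (hω.1 m).le)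
      (fun m => mul_le_mul_of_nonneg_right (norm_le_nm (cm m Y) i j) (hω.1 m).le) hs
  obtain ⟨C, hC⟩ := (exp_iff (fun m => norm_nonneg _)).2 ⟨ρ, hρ0, hs2⟩
  refine ⟨C, fun m => (hC m).trans ?_⟩
  have h1 : (1 : ℝ) ≤ (m none).factorial := by exact_mod_cast Nat.factorial_pos _
  exact le_mul_of_one_le_right ((norm_nonneg _).trans (hC m)) h1

end Pool.Fml
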