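import Pool.Agent.Fml.Gauge

set_option autoImplicit false
set_option linter.unusedSectionVars false
set_option linter.unusedVariables false

namespace Pool.Fml

open Finset.HasAntidiagonal (antidiagonal mem_antidiagonal)
open MvPowerSeries

namespace SymRing

variable {d : ℕ} (A : SymRing d)

lemma ext' {f g : A.alg} (h : (f : Ser d) = g) : f = g := Subtype.ext h

lemma coe_var (i : Option (Fin d)) : ((A.var i : A.alg) : Ser d) = X i := rfl

lemma coe_pd (i : Option (Fin d)) (f : A.alg) :
    ((A.pd i f : A.alg) : Ser d) = pderiv ℂ i (f : Ser d) := rfl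

lemma pd_add (i : Option (Fin d)) (f g : A.alg) : A.pd i (f + g) = A.pd i f + A.pd i g :=
  A.ext' (by simp only [coe_pd, Subalgebra.coe_add, map_add])

lemma pd_mul (i : Option (Fin d)) (f g : A.alg) :
    A.pd i (f * g) = f * A.pd i g + g * A.pd i f :=
  A.ext' (by simp only [coe_pd, Subalgebra.coe_add, Subalgebra.coe_mul, Derivation.leibniz,
    smul_eq_mul])

lemma pd_zero (i : Option (Fin d)) : A.pd i 0 = 0 :=
  A.ext' (by simp only [coe_pd, Subalgebra.coe_zero, map_zero])

lemma pd_one (i : Option (Fin d)) : A.pd i 1 = 0 :=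
  A.ext' (by simp only [coe_pd, Subalgebra.coe_one, Derivation.map_one_eq_zero,
    Subalgebra.coe_zero])

lemma pd_var_self (i : Option (Fin d)) : A.pd i (A.var i) = 1 :=
  A.ext' (by simp only [coe_pd, coe_var, pderiv_X_self, Subalgebra.coe_one])

lemma pd_var_ne {i j : Option (Fin d)} (h : j ≠ i) : A.pd i (A.var j) = 0 :=
  A.ext' (by simp only [coe_pd, coe_var, pderiv_X_of_ne h, Subalgebra.coe_zero])

lemma var_cancel {i : Option (Fin d)} {f g : A.alg} (h : A.var i * f = A.var i * g) : f = g := by
  refine A.ext' ?_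
  have h1 : (X i : Ser d) * (f : Ser d) = X i * (g : Ser d) :=
    congrArg (fun x : A.alg => (x : Ser d)) h
  have h2 : (X i : Ser d) ≠ 0 := by
    classical
    intro h2
    have := congrArg (coeff (Finsupp.single i 1)) h2
    rw [coeff_X, if_pos rfl, map_zero] at this
    exact one_ne_zero this
  exact mul_left_cancel₀ h2 h1

/-- weights of all the variables -/
def wts (w : Fin d → ℕ) (κ : ℕ) : Option (Fin d) → ℕ := fun o => o.elim κ w

/-- the Euler derivation on the ring -/
noncomputable def eulA (w : Fin d → ℕ) (κ : ℕ) (f : A.alg) : A.alg :=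
  κ • (A.var none * A.pd none f) + ∑ i, w i • (A.var (some i) * A.pd (some i) f)

lemma coe_eulA (w : Fin d → ℕ) (κ : ℕ) (f : A.alg) :
    ((A.eulA w κ f : A.alg) : Ser d) = eul (wts w κ) (f : Ser d) := by
  rw [eul_apply, Fintype.sum_option, eulA]
  push_cast
  simp only [coe_var, coe_pd, nsmul_eq_mul]
  rfl

end SymRing

namespace Lattice

variable {d : ℕ} {A : SymRing d} (M : Lattice A)

lemma mul_apply (f : A.alg) (u : M.L) : M.mul f u = f • u := rfl

lemma end_sum_apply {κ : Type} (s : Finset κ) (F : κ → AddMonoid.End M.L) (u : M.L) :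
    (∑ k ∈ s, F k : AddMonoid.End M.L) u = ∑ k ∈ s, F k u := by
  classical
  induction s using Finset.induction_on with
  | empty => rfl
  | insert k s hk ih =>
    rw [Finset.sum_insert hk, Finset.sum_insert hk, ← ih]; rfl

lemma euler_apply (w : Fin d → ℕ) (κ : ℕ) (u : M.L) :
    M.euler w κ u = κ • M.T u + ∑ i, w i • (A.var (some i) • M.P i u) := by
  change (κ • M.T) u + (∑ i, w i • (M.mul (A.var (some i)) * M.P i) : AddMonoid.End M.L) u = _
  rw [end_sum_apply]
  rfl

lemma euler_smul (w : Fin d → ℕ) (κ : ℕ) (f : A.alg) (u : M.L) :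
    M.euler w κ (f • u) = f • M.euler w κ u + (A.var none * A.eulA w κ f) • u := by
  rw [euler_apply, euler_apply, M.T_smul]
  simp only [M.P_smul, SymRing.eulA, smul_add, mul_add, add_smul, Finset.smul_sum, Finset.mul_sum,
    Finset.sum_smul, Finset.sum_add_distrib]
  have h1 : ∀ i, w i • A.var (some i) • f • M.P i u = f • w i • A.var (some i) • M.P i u :=
    fun i => by rw [smul_comm (A.var (some i)) f, smul_comm (w i) f]
  have h2 : ∀ i, w i • A.var (some i) • (A.var none * A.pd (some i) f) • u
      = (A.var none * (w i • (A.var (some i) * A.pd (some i) f))) • u := fun i => by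
    rw [smul_smul, ← smul_assoc]
    congr 1
    rw [mul_smul_comm]
    congr 1
    ring
  have h3 : κ • (A.var none ^ 2 * A.pd none f) • u
      = (A.var none * κ • (A.var none * A.pd none f)) • u := by
    rw [← smul_assoc]
    congr 1
    rw [mul_smul_comm]
    congr 1
    ring
  simp only [h1, h2, h3]
  rw [smul_comm κ f]
  abel

lemma euler_mem_ops (w : Fin d → ℕ) (κ : ℕ) : M.euler w κ ∈ M.ops := by
  have hT : M.T ∈ M.ops := Subring.subset_closure (Or.inr (Or.inl rfl))
  have hP : ∀ i, M.P i ∈ M.ops := fun i => Subring.subset_closure (Or.inr (Or.inr ⟨i, rfl⟩))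
  have hm : ∀ f, M.mul f ∈ M.ops := fun f => Subring.subset_closure (Or.inl ⟨f, rfl⟩)
  exact add_mem (nsmul_mem hT _) (sum_mem fun i _ => nsmul_mem (mul_mem (hm _) (hP i)) _)

lemma euler_T (w : Fin d → ℕ) (κ : ℕ) (u : M.L) :
    M.euler w κ (M.T u) - M.T (M.euler w κ u)
      = (κ : ℤ) • (A.var none • M.T u) - A.var none • M.euler w κ u := by
  rw [euler_apply, euler_apply, map_add, map_sum, map_nsmul]
  have h1 : ∀ i, M.T (w i • A.var (some i) • M.P i u)
      = w i • A.var (some i) • M.P i (M.T u) + w i • A.var (some i) • A.var none • M.P i u := by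
    intro i
    have h2 := M.P_T i u
    rw [map_nsmul, M.T_smul, A.pd_var_ne (by simp), mul_zero, zero_smul, add_zero, ← smul_add,
      ← smul_add]
    congr 2
    rw [← sub_eq_zero]
    have h3 : M.T (M.P i u) - (M.P i (M.T u) + A.var none • M.P i u)
        = -(M.P i (M.T u) - M.T (M.P i u) - -(A.var none • M.P i u)) := by abel
    rw [h3, h2]; abel
  simp only [h1, Finset.sum_add_distrib, smul_add, Finset.smul_sum]
  have h4 : ∀ i, w i • A.var (some i) • A.var none • M.P i u
      = A.var none • w i • A.var (some i) • M.P i u := fun i => by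
    rw [smul_comm (A.var (some i)) (A.var none), smul_comm (w i) (A.var none)]
  simp only [h4]
  rw [smul_comm (A.var none) κ, natCast_zsmul]
  abel

lemma euler_P (w : Fin d → ℕ) (κ : ℕ) (j : Fin d) (u : M.L) :
    M.euler w κ (M.P j u) - M.P j (M.euler w κ u)
      = ((κ : ℤ) - w j) • (A.var none • M.P j u) := by
  rw [euler_apply, euler_apply, map_add, map_sum, map_nsmul]
  have h1 : ∀ i, M.P j (w i • A.var (some i) • M.P i u)
      = w i • A.var (some i) • M.P i (M.P j u)
        + (if i = j then w j • A.var none • M.P j u else 0) := by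
    intro i
    rw [map_nsmul, M.P_smul, M.P_P j i u, smul_add]
    congr 1
    by_cases hij : i = j
    · subst hij
      rw [if_pos rfl, A.pd_var_self, mul_one]
    · rw [if_neg hij, A.pd_var_ne (by simpa using hij), mul_zero, zero_smul, smul_zero]
  simp only [h1, Finset.sum_add_distrib, Finset.sum_ite_eq', Finset.mem_univ, if_true]
  have h2 := M.P_T j u
  have h3 : M.T (M.P j u) = M.P j (M.T u) + A.var none • M.P j u := by
    rw [← sub_eq_zero]
    have h3 : M.T (M.P j u) - (M.P j (M.T u) + A.var none • M.P j u)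
        = -(M.P j (M.T u) - M.T (M.P j u) - -(A.var none • M.P j u)) := by abel
    rw [h3, h2]; abel
  rw [h3, smul_add, sub_smul, natCast_zsmul, natCast_zsmul]
  abel

/-- the equation satisfied by the matrix of `T` or `P_i` in a basis adapted to the Euler
operator -/
lemma mat_eq {r : ℕ} (b : Module.Basis (Fin r) A.alg M.L) (w : Fin d → ℕ) (κ : ℕ)
    (Θ : Matrix (Fin r) (Fin r) A.alg)
    (hE : ∀ j, M.euler w κ (b j) = ∑ l, (A.var none * Θ l j) • b l)
    (Q : AddMonoid.End M.L) (q : A.alg → A.alg) (hQ : ∀ f u, Q (f • u) = f • Q u + q f • u)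
    (e : ℤ) (hq : ∀ f, q (A.var none * f) = e • (A.var none * (A.var none * f))
      + A.var none * q f)
    (c : ℤ) (hEQ : ∀ u, M.euler w κ (Q u) - Q (M.euler w κ u)
      = c • (A.var none • Q u) - e • (A.var none • M.euler w κ u)) (k j : Fin r) :
    A.eulA w κ (b.repr (Q (b j)) k)
      + (∑ l, Θ k l * b.repr (Q (b j)) l - ∑ l, b.repr (Q (b l)) k * Θ l j)
      - c • b.repr (Q (b j)) k = q (Θ k j) := by
  set Y : Matrix (Fin r) (Fin r) A.alg := fun l j => b.repr (Q (b j)) l with hY
  have hQb : ∀ j, Q (b j) = ∑ l, Y l j • b l := fun j => (b.sum_repr _).symm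
  have hrs : ∀ (f : Fin r → A.alg), b.coord k (∑ l, f l • b l) = f k := fun f => by
    rw [b.coord_apply, b.repr_sum_self]
  have h1 : M.euler w κ (Q (b j)) = ∑ k, ((∑ l, Y l j * (A.var none * Θ k l))
      + A.var none * A.eulA w κ (Y k j)) • b k := by
    rw [hQb, map_sum]
    simp only [M.euler_smul, hE, add_smul, Finset.sum_add_distrib, Finset.sum_smul,
      Finset.smul_sum, smul_smul]
    rw [Finset.sum_comm]
  have h2 : Q (M.euler w κ (b j)) = ∑ k, ((∑ l, (A.var none * Θ l j) * Y k l)
      + q (A.var none * Θ k j)) • b k := by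
    rw [hE, map_sum]
    simp only [hQ, add_smul, Finset.sum_add_distrib, Finset.sum_smul]
    simp only [hQb, Finset.smul_sum, smul_smul]
    rw [Finset.sum_comm]
  have h3 := hEQ (b j)
  rw [h1, h2, hQb, hE] at h3
  have h4 := congrArg (b.coord k) h3
  rw [map_sub, map_sub, map_zsmul, map_zsmul, map_smul, map_smul, hrs, hrs, hrs, hrs, hq,
    smul_eq_mul, smul_eq_mul] at h4
  refine A.var_cancel (i := none) ?_
  have h5 : ∑ l, Y l j * (A.var none * Θ k l) = A.var none * ∑ l, Θ k l * Y l j := by
    rw [Finset.mul_sum]; exact Finset.sum_congr rfl fun l _ => by ring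
  have h6 : ∑ l, (A.var none * Θ l j) * Y k l = A.var none * ∑ l, Y k l * Θ l j := by
    rw [Finset.mul_sum]; exact Finset.sum_congr rfl fun l _ => by ring
  rw [h5, h6] at h4
  rw [mul_sub, mul_add, mul_sub, mul_smul_comm]
  change A.var none * A.eulA w κ (Y k j) + _ - c • (A.var none * Y k j) = _
  linear_combination h4

end Lattice

end Pool.Fml
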