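import Pool.Agent.Fml.Final

/-!
# Lattices over rings of microdifferential symbols

`X = ℂ^d × ℂ` with coordinates `x_1, …, x_d, t` and `p = (0; dt)`. Near `p` the ring of (formal)
microdifferential operators of order `≤ 0` contains `x_i`, `s = ∂_t⁻¹`, `t` and
`P_i = ∂_{x_i} ∂_t⁻¹`. The operators in `x` and `s` form a commutative ring of symbols
`f = ∑ a_j(x) s^j`, with the commutation relations `[t, f] = s² ∂f/∂s`, `[P_i, f] = s ∂f/∂x_i`,
`[P_i, t] = - s P_i`, `[P_i, P_j] = 0`.
-/

set_option autoImplicit false

namespace Pool.Fmd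

open MvPowerSeries
open Pool.Fml (Ser SymRing formal micro)

variable {d : ℕ}

/-- the elements of a ring of symbols -/
def R (A : SymRing d) : Type := A.alg

noncomputable instance (A : SymRing d) : CommRing (R A) := inferInstanceAs (CommRing A.alg)

/-- the symbol `x_i` -/
noncomputable def x (A : SymRing d) (i : Fin d) : R A := A.var (some i)

/-- the symbol `s = ∂_t⁻¹` -/
noncomputable def s (A : SymRing d) : R A := A.var none

/-- the partial derivative with respect to `s` (for `none`) or `x_i` (for `some i`) -/
noncomputable def pd (A : SymRing d) (i : Option (Fin d)) (f : R A) : R A := A.pd i f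

/-- the derivation `[t, ·] = s² ∂/∂s` -/
noncomputable def dT (A : SymRing d) (f : R A) : R A := s A ^ 2 * pd A none f

/-- the derivation `[P_i, ·] = s ∂/∂x_i` -/
noncomputable def dP (A : SymRing d) (i : Fin d) (f : R A) : R A := s A * pd A (some i) f

/-- the operator `Q` on `L` satisfies `[Q, f] = q(f)` for all symbols `f` -/
def Over (A : SymRing d) (L : Type) [AddCommGroup L] [Module (R A) L] (q : R A → R A)
    (Q : AddMonoid.End L) : Prop :=
  ∀ (f : R A) (u : L), Q (f • u) = f • Q u + q f • u

/-- the commutation relation `[P, t] = - s P` -/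
def RelPT (A : SymRing d) (L : Type) [AddCommGroup L] [Module (R A) L]
    (T P : AddMonoid.End L) : Prop :=
  ∀ u : L, P (T u) - T (P u) = - (s A • P u)

/-- A free lattice of finite rank over a ring of symbols `A`, with operators `T = t` and
`P_i = ∂_{x_i} ∂_t⁻¹` which satisfy the commutation relations of microdifferential operators. -/
structure Lattice (A : SymRing d) where
  /-- the lattice -/
  L : Type
  [grp : AddCommGroup L]
  [mod : Module (R A) L]
  [free : Module.Free (R A) L]
  [fin : Module.Finite (R A) L]
  /-- the action of `t` -/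
  T : AddMonoid.End L
  /-- the action of `P_i` -/
  P : Fin d → AddMonoid.End L
  T_over : Over A L (dT A) T
  P_over : ∀ i, Over A L (dP A i) (P i)
  P_T : ∀ i, RelPT A L T (P i)
  P_P : ∀ i j u, P i (P j u) = P j (P i u)

namespace Lattice

variable {A : SymRing d} (M : Lattice A)

instance : AddCommGroup M.L := M.grp
instance : Module (R A) M.L := M.mod
instance : Module.Free (R A) M.L := M.free
instance : Module.Finite (R A) M.L := M.fin

/-- multiplication by a symbol -/
noncomputable def mul (f : R A) : AddMonoid.End M.L := DistribSMul.toAddMonoidHom M.L f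

/-- the ring of operators of order `≤ 0` generated by the symbols, `t` and the `P_i` -/
noncomputable def ops : Subring (AddMonoid.End M.L) :=
  Subring.closure (Set.range M.mul ∪ ({M.T} ∪ Set.range M.P))

/-- `F` maps the lattice `L` into `s L`: the principal symbol of order `0` of `F` annihilates
`L / s L`. -/
def Kills (F : AddMonoid.End M.L) : Prop := ∀ u : M.L, ∃ v : M.L, F u = s A • v

/-- the principal symbol of order `0` of `F` vanishes on the support `Λ` of `L / s L`, that is, it
acts nilpotently on `L / s L` -/
def Vanishes (F : AddMonoid.End M.L) : Prop := ∃ n : ℕ, M.Kills (F ^ n)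

/-- Regularity, `J_Λ L ⊆ L`: if the symbol of `F` vanishes on `Λ` then `s⁻¹ F` maps `L` to `L`. -/
def Regular : Prop := ∀ F ∈ M.ops, M.Vanishes F → M.Kills F

/-- the operator `w_i x_i P_i` -/
noncomputable def term (w : Fin d → ℕ) (i : Fin d) : AddMonoid.End M.L :=
  w i • (M.mul (x A i) * M.P i)

/-- `s` times the Euler operator `κ t ∂_t + ∑ w_i x_i ∂_{x_i}`, up to a multiple of `s` -/
noncomputable def euler (w : Fin d → ℕ) (κ : ℕ) : AddMonoid.End M.L :=
  κ • M.T + ∑ i, M.term w i

/-- `Λ` is quasi-homogeneous for the weights `w_i` of `x_i` and `κ` of `t`: the symbol of the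
Euler operator vanishes on `Λ`. -/
def QuasiHomogeneous (w : Fin d → ℕ) (κ : ℕ) : Prop := M.Vanishes (M.euler w κ)

end Lattice

/-- the inclusion of the microdifferential symbols into the formal symbols -/
noncomputable def inc (d : ℕ) : R (micro d) →+* R (formal d) :=
  (Subalgebra.inclusion Pool.Fml.micro_le_formal).toRingHom

/-- `φ` is semilinear -/
def Semilinear (N : Lattice (micro d)) (M : Lattice (formal d)) (φ : N.L →+ M.L) : Prop :=
  ∀ (f : R (micro d)) (u : N.L), φ (f • u) = inc d f • φ u

/-- `φ` maps a basis of `N` to a basis of `M` -/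
def MapsBasis (N : Lattice (micro d)) (M : Lattice (formal d)) (φ : N.L →+ M.L) : Prop :=
  ∃ (r : ℕ) (b : Module.Basis (Fin r) (R (micro d)) N.L)
    (c : Module.Basis (Fin r) (R (formal d)) M.L), ∀ j, φ (b j) = c j

/-- `M` is obtained from `N` by extension of scalars. -/
def IsExtension (N : Lattice (micro d)) (M : Lattice (formal d)) : Prop :=
  ∃ φ : N.L →+ M.L, Semilinear N M φ ∧ (∀ u, φ (N.T u) = M.T (φ u)) ∧
    (∀ i u, φ (N.P i u) = M.P i (φ u)) ∧ MapsBasis N M φ

end Pool.Fmd
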