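import Pool.Agent.Fml.Bridge

/-!
# Regular formal microdifferential modules with quasi-homogeneous support are convergent

`X = ℂ^d × ℂ` with coordinates `x_1, …, x_d, t`, `s = ∂_t⁻¹`, `P_i = ∂_{x_i} ∂_t⁻¹`, and
`p = (0; dt)`. `formal d` is the ring of formal symbols `∑ a_j(x) s^j` (common polydisc, no growth
condition), `micro d` the subring of microdifferential symbols (`|a_j| ≤ C^(j+1) j!`). A `Lattice`
over one of these rings is a free module `L` of finite rank with operators `t` and `P_i` which
satisfy the commutation relations of microdifferential operators: this is a lattice in a
(formal) microdifferential module near `p` when the support `Λ` is in generic position.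

* `Regular`: `J_Λ L ⊆ L`.
* `QuasiHomogeneous w κ`: the symbol of the Euler operator `κ t ∂_t + ∑ w_i x_i ∂_{x_i}` vanishes
  on `Λ`.
* `IsExtension`: one lattice is obtained from another by extension of scalars.

Proof: by regularity the Euler operator acts on `L`. As `s` has positive weight, a gauge
transformation over `formal d` removes all terms of large weight from its matrix. The matrices of
`t` and of the `P_i` then satisfy linear equations of Fuchsian type with convergent coefficients,
so that they converge.
-/

set_option autoImplicit false

open Pool.Fmd

/-- Let `M` be a regular formal lattice in generic position whose support `Λ` is quasi-homogeneous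
(integer weights `w_i ≥ 0` of `x_i` and `κ > 0` of `t`). Then `M` is obtained by extension of
scalars from a regular microdifferential lattice. -/
theorem Pool.Agent.Results.MP_b26194_ag.QuasiHomogeneous.result {d : ℕ}
    (M : Lattice (Pool.Fml.formal d)) (hM : M.Regular) (w : Fin d → ℕ) (κ : ℕ) (hκ : 0 < κ)
    (hq : M.QuasiHomogeneous w κ) :
    ∃ N : Lattice (Pool.Fml.micro d), N.Regular ∧ IsExtension N M :=
  main M hM w κ hκ hq
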