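import Mathlib

set_option autoImplicit false
set_option linter.unusedSectionVars false

namespace Pool.Fml

open Finset.HasAntidiagonal (antidiagonal mem_antidiagonal)

section seq

variable {ι : Type} [Fintype ι] [DecidableEq ι]

/-- geometric families are summable -/
lemma summable_pi (ι : Type) [Finite ι] (x : ℝ) (h0 : 0 ≤ x) (h1 : x < 1) :
    Summable (fun m : ι → ℕ => x ^ (∑ᶠ i, m i)) := by
  induction ι using Finite.induction_empty_option with
  | of_equiv e ih =>
    rw [← (Equiv.arrowCongr e (Equiv.refl ℕ)).summable_iff]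
    convert ih using 1
    funext m
    simp only [Function.comp, Equiv.arrowCongr_apply, Equiv.refl_apply]
    congr 1
    exact finsum_comp_equiv (f := m) e.symm
  | h_empty => exact (hasSum_fintype _).summable
  | h_option ih =>
    rename_i α _
    rw [← (Equiv.piOptionEquivProd (α := α) (β := fun _ => ℕ)).symm.summable_iff]
    have := Summable.mul_of_nonneg (summable_geometric_of_lt_one h0 h1) ih
      (fun n => pow_nonneg h0 n) (fun m => pow_nonneg h0 _)
    convert this using 1
    funext m
    simp only [Function.comp, Equiv.piOptionEquivProd_symm_apply]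
    rw [← pow_add]
    congr 1
    have := Fintype.ofFinite α
    rw [finsum_eq_sum_of_fintype, finsum_eq_sum_of_fintype, Fintype.sum_option]

lemma summable_deg (x : ℝ) (h0 : 0 ≤ x) (h1 : x < 1) :
    Summable (fun m : ι →₀ ℕ => x ^ m.degree) := by
  have h := summable_pi ι x h0 h1
  rw [← (Finsupp.equivFunOnFinite (α := ι) (M := ℕ)).summable_iff] at h
  convert h using 1
  funext m
  simp only [Function.comp]
  rw [finsum_eq_sum_of_fintype, Finsupp.degree_eq_sum]
  rfl

/-- the weight function of an `l¹` norm -/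
def Sub (ω : (ι →₀ ℕ) → ℝ) : Prop := (∀ m, 0 < ω m) ∧ ∀ p q, ω (p + q) ≤ ω p * ω q

lemma conv_summable {ω : (ι →₀ ℕ) → ℝ} (hω : Sub ω) {a b c : (ι →₀ ℕ) → ℝ}
    (ha0 : ∀ m, 0 ≤ a m) (hb0 : ∀ m, 0 ≤ b m) (hc0 : ∀ m, 0 ≤ c m)
    (ha : Summable fun m => a m * ω m) (hb : Summable fun m => b m * ω m)
    (hc : ∀ m, c m ≤ ∑ p ∈ antidiagonal m, a p.1 * b p.2) :
    Summable fun m => c m * ω m := by
  have h1 := Summable.mul_of_nonneg ha hb (fun m => mul_nonneg (ha0 m) (hω.1 m).le)
    (fun m => mul_nonneg (hb0 m) (hω.1 m).le)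
  have h2 := summable_sum_mul_antidiagonal_of_summable_mul
    (f := fun m => a m * ω m) (g := fun m => b m * ω m) h1
  refine Summable.of_nonneg_of_le (fun m => mul_nonneg (hc0 m) (hω.1 m).le) (fun m => ?_) h2
  calc c m * ω m ≤ (∑ p ∈ antidiagonal m, a p.1 * b p.2) * ω m :=
        mul_le_mul_of_nonneg_right (hc m) (hω.1 m).le
    _ = ∑ p ∈ antidiagonal m, a p.1 * b p.2 * ω m := Finset.sum_mul _ _ _
    _ ≤ _ := by
        refine Finset.sum_le_sum fun p hp => ?_
        rw [mem_antidiagonal] at hp
        have := hω.2 p.1 p.2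
        rw [hp] at this
        calc a p.1 * b p.2 * ω m ≤ a p.1 * b p.2 * (ω p.1 * ω p.2) :=
              mul_le_mul_of_nonneg_left this (mul_nonneg (ha0 _) (hb0 _))
          _ = _ := by ring

/-- the basic estimate -/
lemma basic_est {ω : (ι →₀ ℕ) → ℝ} (hω : Sub ω) {a u f : (ι →₀ ℕ) → ℝ} (K : ℝ)
    (ha0 : ∀ m, 0 ≤ a m) (hu0 : ∀ m, 0 ≤ u m) (hf0 : ∀ m, 0 ≤ f m)
    (hu : Summable fun m => u m * ω m) (hf : Summable fun m => f m * ω m)
    (hK : ∑' m, u m * ω m < K)
    (h : ∀ m, K * a m ≤ (∑ p ∈ antidiagonal m, u p.1 * a p.2) + f m) :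
    Summable fun m => a m * ω m := by
  set U := ∑' m, u m * ω m
  set F := ∑' m, f m * ω m
  have hK' : 0 < K - U := by linarith
  have key : ∀ N : ι →₀ ℕ, ∑ m ∈ Finset.Iic N, a m * ω m ≤ F / (K - U) := by
    intro N
    set S := ∑ m ∈ Finset.Iic N, a m * ω m with hS
    have hS0 : 0 ≤ S := Finset.sum_nonneg fun m _ => mul_nonneg (ha0 m) (hω.1 m).le
    have h1 : K * S ≤ U * S + F := by
      calc K * S = ∑ m ∈ Finset.Iic N, K * a m * ω m := by
            rw [hS, Finset.mul_sum]; exact Finset.sum_congr rfl fun m _ => by ring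
        _ ≤ ∑ m ∈ Finset.Iic N, ((∑ p ∈ antidiagonal m, u p.1 * a p.2) + f m) * ω m :=
            Finset.sum_le_sum fun m _ => mul_le_mul_of_nonneg_right (h m) (hω.1 m).le
        _ = (∑ m ∈ Finset.Iic N, ∑ p ∈ antidiagonal m, u p.1 * a p.2 * ω m)
            + ∑ m ∈ Finset.Iic N, f m * ω m := by
            rw [← Finset.sum_add_distrib]
            refine Finset.sum_congr rfl fun m _ => ?_
            rw [add_mul, Finset.sum_mul]
        _ ≤ U * S + F := by
            refine add_le_add ?_ (hf.sum_le_tsum _ fun m _ => mul_nonneg (hf0 m) (hω.1 m).le)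
            calc ∑ m ∈ Finset.Iic N, ∑ p ∈ antidiagonal m, u p.1 * a p.2 * ω m
                ≤ ∑ m ∈ Finset.Iic N, ∑ p ∈ antidiagonal m, (u p.1 * ω p.1) * (a p.2 * ω p.2) := by
                  refine Finset.sum_le_sum fun m _ => Finset.sum_le_sum fun p hp => ?_
                  rw [mem_antidiagonal] at hp
                  have := hω.2 p.1 p.2
                  rw [hp] at this
                  calc u p.1 * a p.2 * ω m ≤ u p.1 * a p.2 * (ω p.1 * ω p.2) :=
                        mul_le_mul_of_nonneg_left this (mul_nonneg (hu0 _) (ha0 _))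
                    _ = _ := by ring
              _ = ∑ x ∈ (Finset.Iic N).sigma (fun m => antidiagonal m),
                    (u x.2.1 * ω x.2.1) * (a x.2.2 * ω x.2.2) := by
                  rw [Finset.sum_sigma]
              _ ≤ ∑ x ∈ (Finset.Iic N) ×ˢ (Finset.Iic N), (u x.1 * ω x.1) * (a x.2 * ω x.2) := by
                  have hinj : Set.InjOn (fun x : (Σ _ : ι →₀ ℕ, (ι →₀ ℕ) × (ι →₀ ℕ)) => x.2)
                      ((Finset.Iic N).sigma (fun m => antidiagonal m)) := by
                    rintro ⟨m, p⟩ hp ⟨m', p'⟩ hp' hpp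
                    simp only [Finset.coe_sigma, Set.mem_sigma_iff, Finset.mem_coe,
                      mem_antidiagonal] at hp hp' hpp
                    subst hpp
                    obtain ⟨_, h2⟩ := hp
                    obtain ⟨_, h3⟩ := hp'
                    subst h2
                    subst h3
                    rfl
                  rw [← Finset.sum_image (f := fun x : (ι →₀ ℕ) × (ι →₀ ℕ) =>
                    (u x.1 * ω x.1) * (a x.2 * ω x.2)) hinj]
                  refine Finset.sum_le_sum_of_subset_of_nonneg ?_ fun x _ _ =>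
                    mul_nonneg (mul_nonneg (hu0 _) (hω.1 _).le) (mul_nonneg (ha0 _) (hω.1 _).le)
                  intro x hx
                  rw [Finset.mem_image] at hx
                  obtain ⟨⟨m, p⟩, hp, rfl⟩ := hx
                  simp only [Finset.mem_sigma, Finset.mem_Iic, mem_antidiagonal] at hp
                  simp only [Finset.mem_product, Finset.mem_Iic]
                  obtain ⟨h1, h2⟩ := hp
                  subst h2
                  exact ⟨le_trans le_self_add h1, le_trans le_add_self h1⟩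
              _ = (∑ m ∈ Finset.Iic N, u m * ω m) * S := by
                  rw [Finset.sum_product, Finset.sum_mul]
                  refine Finset.sum_congr rfl fun m _ => ?_
                  rw [hS, Finset.mul_sum]
              _ ≤ U * S := mul_le_mul_of_nonneg_right
                  (hu.sum_le_tsum _ fun m _ => mul_nonneg (hu0 m) (hω.1 m).le) hS0
    rw [le_div_iff₀ hK']
    nlinarith
  refine summable_of_sum_le (c := F / (K - U)) (fun m => mul_nonneg (ha0 m) (hω.1 m).le) ?_
  intro s
  refine le_trans (Finset.sum_le_sum_of_subset_of_nonneg (t := Finset.Iic (s.sup id)) ?_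
    fun m _ _ => mul_nonneg (ha0 m) (hω.1 m).le) (key _)
  intro m hm
  rw [Finset.mem_Iic]
  exact Finset.le_sup (f := id) hm

/-- a rapidly decreasing submultiplicative sequence -/
lemma exists_tau (u : ℕ → ℝ) (hu : ∀ j, 0 ≤ u j) :
    ∃ τ : ℕ → ℝ, τ 0 = 1 ∧ (∀ j, 0 < τ j) ∧ (∀ i j, τ (i + j) ≤ τ i * τ j) ∧
      ∀ j, u (j + 1) * τ (j + 1) ≤ (1 / 2) ^ (j + 1) := by
  set c : ℕ → ℝ := fun i => 2 * (1 + ∑ l ∈ Finset.range (i + 2), u l) with hc
  have hc2 : ∀ i, 2 ≤ c i := fun i => by
    have : 0 ≤ ∑ l ∈ Finset.range (i + 2), u l := Finset.sum_nonneg fun l _ => hu l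
    simp only [hc]; linarith
  have hcm : Monotone c := by
    refine monotone_nat_of_le_succ fun i => ?_
    simp only [hc]
    rw [Finset.sum_range_succ _ (i + 1 + 1)]
    have := hu (i + 2)
    linarith
  have hcu : ∀ j, 2 * u (j + 1) ≤ c j := fun j => by
    have : u (j + 1) ≤ ∑ l ∈ Finset.range (j + 2), u l :=
      Finset.single_le_sum (fun l _ => hu l) (Finset.mem_range.2 (by omega))
    simp only [hc]; linarith
  have hcp : ∀ i, 0 < c i := fun i => by have := hc2 i; linarith
  refine ⟨fun j => ∏ i ∈ Finset.range j, (c i)⁻¹, by simp, fun j =>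
    Finset.prod_pos fun i _ => inv_pos.2 (hcp i), fun i j => ?_, fun j => ?_⟩
  · simp only
    rw [Finset.prod_range_add]
    refine mul_le_mul_of_nonneg_left (Finset.prod_le_prod (fun l _ => (inv_pos.2 (hcp _)).le)
      fun l _ => ?_) (Finset.prod_nonneg fun l _ => (inv_pos.2 (hcp _)).le)
    exact inv_anti₀ (hcp l) (hcm (by omega))
  · simp only
    rw [Finset.prod_range_succ]
    have h1 : ∏ i ∈ Finset.range j, (c i)⁻¹ ≤ (1 / 2) ^ j := by
      calc ∏ i ∈ Finset.range j, (c i)⁻¹ ≤ ∏ i ∈ Finset.range j, (1 / 2 : ℝ) :=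
            Finset.prod_le_prod (fun l _ => (inv_pos.2 (hcp _)).le) fun l _ => by
              rw [one_div]; exact inv_anti₀ (by norm_num) (hc2 l)
        _ = _ := by simp
    have h2 : u (j + 1) * (c j)⁻¹ ≤ 1 / 2 := by
      rw [← div_eq_mul_inv, div_le_iff₀ (hcp j)]
      have := hcu j
      linarith
    calc u (j + 1) * ((∏ i ∈ Finset.range j, (c i)⁻¹) * (c j)⁻¹)
        = (∏ i ∈ Finset.range j, (c i)⁻¹) * (u (j + 1) * (c j)⁻¹) := by ring
      _ ≤ (1 / 2) ^ j * (1 / 2) := mul_le_mul h1 h2
          (mul_nonneg (hu _) (inv_pos.2 (hcp j)).le) (by positivity)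
      _ = (1 / 2) ^ (j + 1) := by ring

end seq

end Pool.Fml
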